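import Pool.Agent.Work.MP_46fa68_48c.Chk2

/-!
# MP_46fa68_co: the checks on packed tables in several pieces (less memory)

Intermediate tables are given as data. The entries of the variance tables are truncated, so that a small
base is enough.
-/

set_option autoImplicit false

open Finset Equiv

namespace Pool.JM.Pack

/-! ### splitting the iterations -/

theorem beq_true {a b : ℕ} (h : Nat.beq a b = true) : a = b := Nat.eq_of_beq_eq_true h

/-- an iteration with a known result -/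
theorem upr_of_beq {W v f y : ℕ} (κ : ℕ → Bool) : ∀ (j r x : ℕ),
    upr W v f j r x (fun F => Nat.beq F y) = true → upr W v f j r x κ = κ y := by
  intro j
  induction j with
  | zero =>
    intro r x h
    have : x = y := beq_true h
    rw [← this]
    rfl
  | succ j ih =>
    intro r x h
    have h' : cond (msk W v (cnt r r) x) (upr W v f j (r + 1) (uq W f (r + 1) r x)
      (fun F => Nat.beq F y)) false = true := h
    obtain ⟨h1, h2⟩ := cond_tt h'
    change cond (msk W v (cnt r r) x) (upr W v f j (r + 1) (uq W f (r + 1) r x) κ) false = _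
    rw [h1]
    exact ih _ _ h2

theorem dnr_of_beq {W v f y : ℕ} (κ : ℕ → Bool) : ∀ (j r x : ℕ),
    dnr W v f j r x (fun F => Nat.beq F y) = true → dnr W v f j r x κ = κ y := by
  intro j
  induction j with
  | zero =>
    intro r x h
    have : x = y := beq_true h
    rw [← this]
    rfl
  | succ j ih =>
    intro r x h
    have h' : cond (msk W v (cnt r r) x) (dnr W v f j (r - 1) (dqf W f r r x)
      (fun F => Nat.beq F y)) false = true := h
    obtain ⟨h1, h2⟩ := cond_tt h'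
    change cond (msk W v (cnt r r) x) (dnr W v f j (r - 1) (dqf W f r r x) κ) false = _
    rw [h1]
    exact ih _ _ h2

theorem upr_add {W v f : ℕ} (κ : ℕ → Bool) (i : ℕ) : ∀ (j r x : ℕ),
    upr W v f (j + i) r x κ = upr W v f j r x (fun y => upr W v f i (r + j) y κ) := by
  intro j
  induction j with
  | zero => intro r x; rw [zero_add]; rfl
  | succ j ih =>
    intro r x
    rw [show j + 1 + i = (j + i) + 1 by omega]
    change cond (msk W v (cnt r r) x) (upr W v f (j + i) (r + 1) (uq W f (r + 1) r x) κ) false =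
      cond (msk W v (cnt r r) x) (upr W v f j (r + 1) (uq W f (r + 1) r x)
        (fun y => upr W v f i (r + (j + 1)) y κ)) false
    rw [ih, show r + 1 + j = r + (j + 1) by omega]

theorem dnr_add {W v f : ℕ} (κ : ℕ → Bool) (i : ℕ) : ∀ (j r x : ℕ),
    dnr W v f (j + i) (r + j) x κ = dnr W v f j (r + j) x (fun y => dnr W v f i r y κ) := by
  intro j
  induction j with
  | zero => intro r x; rw [zero_add]; rfl
  | succ j ih =>
    intro r x
    rw [show j + 1 + i = (j + i) + 1 by omega]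
    change cond (msk W v (cnt (r + (j + 1)) (r + (j + 1))) x)
      (dnr W v f (j + i) (r + (j + 1) - 1) (dqf W f (r + (j + 1)) (r + (j + 1)) x) κ) false =
      cond (msk W v (cnt (r + (j + 1)) (r + (j + 1))) x)
      (dnr W v f j (r + (j + 1) - 1) (dqf W f (r + (j + 1)) (r + (j + 1)) x)
        (fun y => dnr W v f i r y κ)) false
    rw [show r + (j + 1) - 1 = r + j by omega, ih]

/-- the numbers of standard tableaux in two pieces -/
theorem upr_step {W v f r j x y z : ℕ} (h1 : upr W v f r 0 x (fun F => Nat.beq F y) = true)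
    (h2 : upr W v f j r y (fun F => Nat.beq F z) = true) :
    upr W v f (Nat.add r j) 0 x (fun F => Nat.beq F z) = true := by
  change upr W v f (r + j) 0 x (fun F => Nat.beq F z) = true
  rw [upr_add, upr_of_beq _ _ _ _ h1, zero_add]
  exact h2

theorem upr_mono {W v f : ℕ} {κ κ' : ℕ → Bool} (hk : ∀ y, κ y = true → κ' y = true) :
    ∀ (j r x : ℕ), upr W v f j r x κ = true → upr W v f j r x κ' = true := by
  intro j
  induction j with
  | zero => intro r x h; exact hk _ h
  | succ j ih =>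
    intro r x h
    have h' : cond (msk W v (cnt r r) x) (upr W v f j (r + 1) (uq W f (r + 1) r x) κ) false =
      true := h
    obtain ⟨h1, h2⟩ := cond_tt h'
    change cond (msk W v (cnt r r) x) (upr W v f j (r + 1) (uq W f (r + 1) r x) κ') false = true
    rw [h1]
    exact ih _ _ h2

/-- the linear conditions in two pieces: `i` levels from `x` to `x'`, then `x'` -/
theorem cL_step {W v f m j i hi D S1 S2 x x' : ℕ}
    (h0 : lt' x (pw W (Nat.add (Nat.add m j) i) (Nat.add (Nat.add m j) i)) = true)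
    (h1 : dnr W v f i (Nat.add (Nat.add m j) i) x (fun y => Nat.beq y x') = true)
    (h2 : cL W v f m j hi D S1 S2 x' = true) :
    cL W v f m (Nat.add j i) hi D S1 S2 x = true := by
  obtain ⟨h3, h4⟩ := cond_tt h2
  have h5 : Nat.ble (Nat.succ x) (pw W (m + (j + i)) (m + (j + i))) = true := by
    have := h0
    unfold lt' at this
    change Nat.ble (Nat.succ x) (pw W (m + j + i) (m + j + i)) = true at this
    rwa [Nat.add_assoc] at this
  change cond (Nat.ble (Nat.succ x) (pw W (m + (j + i)) (m + (j + i))))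
    (upr W v f m 0 1 (fun F => cond (okq W 0 hi f m m F) (lin W v f m (j + i) D S1 S2 F x) false))
      false = true
  rw [h5]
  refine upr_mono (fun F hF => ?_) _ _ _ h4
  obtain ⟨h6, h7⟩ := cond_tt hF
  change cond (okq W 0 hi f m m F) (lin W v f m (j + i) D S1 S2 F x) false = true
  rw [h6]
  change dnr W v f (j + i) (m + (j + i)) x (cmp W v m D S1 S2 F) = true
  rw [Nat.add_comm j i, show m + (i + j) = m + j + i by omega, dnr_add]
  have h8 : dnr W v f i (m + j + i) x (fun y => Nat.beq y x') = true := h1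
  rw [dnr_of_beq _ _ _ _ h8]
  exact h7

/-- the pointwise test of the two-class form, the numbers of tableaux as data -/
theorem cB_of {W v f N O a b c F : ℕ} (hF : upr W v f N 0 1 (fun y => Nat.beq y F) = true)
    (h : ck4 W W (fB O) f N N a b c F = true) : cB W v f N O a b c = true := by
  unfold cB
  rw [upr_of_beq _ _ _ _ hF]
  exact h

theorem cV_of {W v f N E x F : ℕ} (hF : upr W v f N 0 1 (fun y => Nat.beq y F) = true)
    (h : ck4 W W (fV E) f N N x 0 0 F = true) : cV W v f N E x = true := by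
  unfold cV
  rw [upr_of_beq _ _ _ _ hF]
  exact h

/-! ### the variance condition, truncated entries -/

/-- `min (x² T / y + 1) B` -/
noncomputable def gP (B T : ℕ) (x y _n : ℕ) : ℕ :=
  mn (Nat.succ (Nat.div (Nat.mul (Nat.mul x x) T) y)) B

/-- `min (x n T / y) B` -/
noncomputable def gQ (B T : ℕ) (x y n : ℕ) : ℕ := mn (Nat.div (Nat.mul (Nat.mul x n) T) y) B

/-- `min (n² T / y + 1) B` -/
noncomputable def gR (B T : ℕ) (_x y n : ℕ) : ℕ :=
  mn (Nat.succ (Nat.div (Nat.mul (Nat.mul n n) T) y)) B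

/-- one of the three tables: pointwise map, one restriction, comparison with the data -/
noncomputable def cM (W' v' W fu N : ℕ) (φ : ℕ → ℕ → ℕ → ℕ) (x y n P : ℕ) : Bool :=
  fb (mp3 W W' φ fu N N x y n) (fun Z => cond (msk W' v' (cnt N N) Z)
    (Nat.beq (dqf W' fu N N Z) P) false)

theorem gP_le (B T x y n : ℕ) : gP B T x y n ≤ B := by
  unfold gP
  rw [mn_eq]
  exact min_le_right _ _

theorem gQ_le (B T x y n : ℕ) : gQ B T x y n ≤ B := by
  unfold gQ
  rw [mn_eq]
  exact min_le_right _ _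

theorem gR_le (B T x y n : ℕ) : gR B T x y n ≤ B := by
  unfold gR
  rw [mn_eq]
  exact min_le_right _ _

theorem gP_eq {B T x y n : ℕ} (h : gP B T x y n < B) : gP B T x y n = x * x * T / y + 1 := by
  unfold gP at h ⊢
  rw [mn_eq] at h ⊢
  rcases min_choice (Nat.succ (Nat.div (Nat.mul (Nat.mul x x) T) y)) B with h1 | h1
  · rw [h1]
    rfl
  · omega

theorem gQ_eq {B T x y n : ℕ} (h : gQ B T x y n < B) : gQ B T x y n = x * n * T / y := by
  unfold gQ at h ⊢
  rw [mn_eq] at h ⊢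
  rcases min_choice (Nat.div (Nat.mul (Nat.mul x n) T) y) B with h1 | h1
  · rw [h1]
    rfl
  · omega

theorem gR_eq {B T x y n : ℕ} (h : gR B T x y n < B) : gR B T x y n = n * n * T / y + 1 := by
  unfold gR at h ⊢
  rw [mn_eq] at h ⊢
  rcases min_choice (Nat.succ (Nat.div (Nat.mul (Nat.mul n n) T) y)) B with h1 | h1
  · rw [h1]
    rfl
  · omega

/-- soundness of `cM` -/
theorem cM_sound {W W' v' B f K c k x y n P : ℕ} {φ : ℕ → ℕ → ℕ → ℕ}
    (hW' : W' = 2 ^ (v' + 7)) (hB : B = 2 ^ v') (hW0 : 0 < W) (hφ : ∀ a b d, φ a b d ≤ B)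
    (hp : K + c < 128) (hk : k + 1 ≤ c) (hK : k + 1 ≤ K) (hf : k + 1 + (k + 1) < f)
    (hx : x < W ^ cnt c (k + 1)) (hy : y < W ^ cnt c (k + 1)) (hn : n < W ^ cnt c (k + 1))
    (h : cM W' v' W f (k + 1) φ x y n P = true) :
    P < W' ^ cnt c k ∧ ∀ C ∈ Lv K k, ∃ g : ℕ → ℕ,
      eQ W' (K + c) c k P C = ∑ i ∈ ad C, g i ∧ ∀ i ∈ ad C, g i < B ∧
        g i = φ (eQ W (K + c) c (k + 1) x (mv C i)) (eQ W (K + c) c (k + 1) y (mv C i))
          (eQ W (K + c) c (k + 1) n (mv C i)) := by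
  have h0 : 0 < 2 ^ v' := pow_pos (by omega) v'
  have hBW : B < W' := by
    rw [hB, hW', pow_add]
    omega
  have hW'0 : 0 < W' := by omega
  have hmin : min c (k + 1) = k + 1 := min_eq_right hk
  have Z := mp3_sound hW0 hW'0 (φ := φ) (fun a b d _ _ _ => lt_of_le_of_lt (hφ a b d) hBW) f c
    (k + 1) x y n (by rw [hmin]; exact hf) (by omega) hx hy hn
  rw [hmin] at Z
  obtain ⟨m1, h'⟩ := cond_tt (a := msk W' v' (cnt (k + 1) (k + 1))
    (mp3 W W' φ f (k + 1) (k + 1) x y n)) h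
  obtain ⟨Z1, Z2⟩ := Z
  obtain ⟨p1, p2⟩ := stepU hW' hp hk hK hf.le Z1 m1
  have e : dqf W' f (k + 1) (k + 1) (mp3 W W' φ f (k + 1) (k + 1) x y n) = P := beq_true h'
  rw [e] at p1 p2
  refine ⟨p1, fun C hC => ⟨fun i => eQ W' (K + c) c (k + 1)
    (mp3 W W' φ f (k + 1) (k + 1) x y n) (mv C i), ?_, fun i hi => ⟨?_, ?_⟩⟩⟩
  · rw [p2 C (Vd_lv hC (by omega)), Dg_ad]
    intro i hi
    have := (Lv_spec hC).2.2.1 i hi
    omega
  · rw [hB]
    rw [← cnt_self hk] at m1
    exact msk_sound hW' Z1 m1 _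
  · exact Z2 _ _ (Vd_lv (mv_mem hC hi) hk)

/-- the variance condition from the pieces -/
theorem sch_pieces {W W' v' B T₁ T₂ T₃ f K c k A x y n P Q R : ℕ} (hW' : W' = 2 ^ (v' + 7))
    (hB : B = 2 ^ v') (hW0 : 0 < W) (hT : 0 < T₁) (hTT : T₁ * T₃ = T₂ * T₂) (hT2 : 0 < T₂)
    (hT3 : 0 < T₃) (hp : K + c < 128) (hk : k + 1 ≤ c) (hK : k + 1 ≤ K)
    (hf : k + 1 + (k + 1) < f) (hA : A < W ^ cnt c k) (hx : x < W ^ cnt c (k + 1))
    (hy : y < W ^ cnt c (k + 1)) (hn : n < W ^ cnt c (k + 1))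
    (hy0 : ∀ B ∈ Lv K (k + 1), 0 < eQ W (K + c) c (k + 1) y B)
    (hP : cM W' v' W f (k + 1) (gP B T₁) x y 0 P = true)
    (hQ : cM W' v' W f (k + 1) (gQ B T₂) x y n Q = true)
    (hR : cM W' v' W f (k + 1) (gR B T₃) 0 y n R = true)
    (hS : ck4 W' W (fS T₁) f k k P Q R A = true) {C : Finset ℕ} (hC : C ∈ Lv K k) :
    ∃ ψ : ℝ, ∑ i ∈ ad C, ((eQ W (K + c) c (k + 1) x (mv C i) : ℝ) -
      ψ * eQ W (K + c) c (k + 1) n (mv C i)) ^ 2 / eQ W (K + c) c (k + 1) y (mv C i) ≤
        eQ W (K + c) c k A C := by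
  have h0 : 0 < 2 ^ v' := pow_pos (by omega) v'
  have hW'0 : 0 < W' := by
    rw [hW', pow_add]
    omega
  have hz : 0 < W ^ cnt c (k + 1) := pow_pos hW0 _
  obtain ⟨P1, P2⟩ := cM_sound hW' hB hW0 (fun a b d => gP_le B T₁ a b d) hp hk hK hf hx hy hz hP
  obtain ⟨Q1, Q2⟩ := cM_sound hW' hB hW0 (fun a b d => gQ_le B T₂ a b d) hp hk hK hf hx hy hn hQ
  obtain ⟨R1, R2⟩ := cM_sound hW' hB hW0 (fun a b d => gR_le B T₃ a b d) hp hk hK hf hz hy hn hR
  obtain ⟨p, pe, pp⟩ := P2 C hC
  obtain ⟨q, qe, qq⟩ := Q2 C hC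
  obtain ⟨r, re, rr⟩ := R2 C hC
  have key := ck4_sound hW'0 hW0 f c k P Q R A (by rw [min_eq_right (by omega : k ≤ c)]; exact hS)
    P1 Q1 R1 hA (K + c) C (Vd_lv hC (by omega))
  rw [pe, qe, re] at key
  have key' := ble_true key
  refine var_le (s := ad C) (X := fun i => eQ W (K + c) c (k + 1) x (mv C i))
    (Y := fun i => eQ W (K + c) c (k + 1) y (mv C i))
    (n := fun i => eQ W (K + c) c (k + 1) n (mv C i)) (P := p) (Q := q) (R := r) hT hTT hT2 hT3
    (fun i hi => hy0 _ (mv_mem hC hi)) (fun i hi => ?_) (fun i hi => ?_) (fun i hi => ?_) key'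
  · obtain ⟨h1, h2⟩ := pp i hi
    rw [h2] at h1 ⊢
    exact gP_eq h1
  · obtain ⟨h1, h2⟩ := qq i hi
    rw [h2] at h1 ⊢
    exact gQ_eq h1
  · obtain ⟨h1, h2⟩ := rr i hi
    rw [h2] at h1 ⊢
    exact gR_eq h1

/-- the conditions on the parameters, version with truncated entries -/
noncomputable def cPB (W v W' v' B T₁ T₂ T₃ f m j hi hy U dA a1 a2 x1 x2 DX dG g1 g2 : ℕ) : Bool :=
  cond (Nat.beq W (Nat.pow 2 (Nat.add v 7))) (cond (Nat.beq W' (Nat.pow 2 (Nat.add v' 7)))
  (cond (Nat.beq B (Nat.pow 2 v')) (cond (lt' 0 T₁)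
  (cond (Nat.beq (Nat.mul T₁ T₃) (Nat.mul T₂ T₂)) (cond (lt' 0 T₂) (cond (lt' 0 T₃)
  (cond (lt' (Nat.add (Nat.mul 2 (Nat.add m j)) 3) 128) (cond (lt' (Nat.add (Nat.mul 2 (Nat.add m j)) 2) f)
  (cond (lt' 0 m) (cond (lt' 0 U) (cond (lt' hy W)
  (cond (lt' (Nat.mul U a1) (Nat.pow 2 v)) (cond (lt' (Nat.mul U x1) (Nat.pow 2 v))
  (cond (lt' (Nat.mul U g1) (Nat.pow 2 v))
  (cond (lt' (Nat.add (Nat.mul (Nat.mul U dA) hi) (Nat.mul U a2)) W)
  (cond (lt' (Nat.add (Nat.mul DX hi) (Nat.mul U x2)) W)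
  (cond (lt' (Nat.add (Nat.mul (Nat.mul U dG) hi) (Nat.mul U g2)) W) true false)
  false) false) false) false) false) false) false) false) false) false) false) false) false) false)
  false) false) false

end Pool.JM.Pack
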