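import Pool.Agent.Work.MP_46fa68_48c.Sch

/-!
# MP_46fa68_co: the checks on packed tables
-/

set_option autoImplicit false

open Finset Equiv

namespace Pool.JM.Pack

/-! ### the checks -/

/-- the linear conditions of one table on the level `m + j` -/
noncomputable def cL (W v fu m j hi D S1 S2 x : ℕ) : Bool :=
  cond (Nat.ble (Nat.succ x) (pw W (Nat.add m j) (Nat.add m j)))
    (upr W v fu m 0 1 (fun F => cond (okq W 0 hi fu m m F) (lin W v fu m j D S1 S2 F x) false)) false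

/-- positive digits -/
noncomputable def cY (W fu N hy y : ℕ) : Bool := okq W 1 hy fu N N y

/-- the variance condition -/
noncomputable def cS (W' v' W v T₁ T₂ T₃ fu N A x y : ℕ) : Bool :=
  upr W v fu N 0 1 (fun F => sch W' v' W T₁ T₂ T₃ fu N A x y F)

/-- `a < b` -/
noncomputable def lt' (a b : ℕ) : Bool := Nat.ble (Nat.succ a) b

/-- the conditions on the parameters -/
noncomputable def cP (W v W' v' T₁ T₂ T₃ f m j hi hy U dA a1 a2 x1 x2 DX dG g1 g2 : ℕ) : Bool :=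
  cond (Nat.beq W (Nat.pow 2 (Nat.add v 7))) (cond (Nat.beq W' (Nat.pow 2 (Nat.add v' 7)))
  (cond (lt' (Nat.add (Nat.mul (Nat.mul W W) T₃) 1) W') (cond (lt' 0 T₁)
  (cond (Nat.beq (Nat.mul T₁ T₃) (Nat.mul T₂ T₂)) (cond (Nat.ble T₁ T₃) (cond (Nat.ble T₂ T₃)
  (cond (lt' (Nat.add (Nat.mul 2 (Nat.add m j)) 3) 128) (cond (lt' (Nat.add (Nat.mul 2 (Nat.add m j)) 2) f)
  (cond (lt' 0 m) (cond (lt' 0 U) (cond (lt' hy W)
  (cond (lt' (Nat.mul U a1) (Nat.pow 2 v)) (cond (lt' (Nat.mul U x1) (Nat.pow 2 v))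
  (cond (lt' (Nat.mul U g1) (Nat.pow 2 v))
  (cond (lt' (Nat.add (Nat.mul (Nat.mul U dA) hi) (Nat.mul U a2)) W)
  (cond (lt' (Nat.add (Nat.mul DX hi) (Nat.mul U x2)) W)
  (cond (lt' (Nat.add (Nat.mul (Nat.mul U dG) hi) (Nat.mul U g2)) W) true false)
  false) false) false) false) false) false) false) false) false) false) false) false) false) false)
  false) false) false

/-! ### soundness -/

theorem cL_sound {W v f K c m j hi D S1 S2 x : ℕ} (hW : W = 2 ^ (v + 7))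
    (hp : K + c < 128) (hm : 1 ≤ m) (hc : m + j ≤ c) (hK : m + j ≤ K)
    (hf : m + j + (m + j) ≤ f) (hS1 : S1 < 2 ^ v) (hD : D * hi + S2 < W)
    (h : cL W v f m j hi D S1 S2 x = true) :
    x < W ^ cnt c (m + j) ∧ Harm K m (m + j) (hfn W f K c (m + j) x) ∧
      ∀ B ∈ Lv K m, hfn W f K c (m + j) x B = (m.factorial / ex (range K)) *
        (D - if B = Rw K m then (S1 : ℝ) - S2 else 0) := by
  have h2v : 0 < 2 ^ v := pow_pos (by omega) v
  obtain ⟨h1, h2⟩ := cond_tt h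
  have hx : x < W ^ cnt (m + j) (m + j) := Nat.le_of_ble_eq_true h1
  rw [← cnt_self hc] at hx
  have hs0 : Syt W K c 0 1 := Syt_zero (by rw [hW, pow_add]; omega)
  obtain ⟨F, hF, h3⟩ := upr_sound hW hp _ m 0 1 (by omega) (by omega) (by omega) hs0 h2
  rw [zero_add] at hF
  obtain ⟨h4, h5⟩ := cond_tt h3
  exact ⟨hx, Harm_hfn hW hp hc hK hf hx h5,
    fun B hB => hfn_level hW hp hm hc hK hf hx hF hS1 hD h4 h5 hB⟩

theorem lt'_iff {a b : ℕ} (h : lt' a b = true) : a < b := Nat.le_of_ble_eq_true h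

end Pool.JM.Pack
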