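import Pool.Agent.Work.MP_46fa68_48c.Chk

/-!
# MP_46fa68_co: checks for the two-class form (three tables on one level, pointwise)
-/

set_option autoImplicit false

open Finset Equiv

namespace Pool.JM.Pack

/-- `(b - O n)² ≤ a c` -/
noncomputable def fB (O : ℕ) (a b c n : ℕ) : Bool :=
  fb (Nat.mul O n) (fun q => fb (Nat.mul a c) (fun p =>
    cond (fb (Nat.sub b q) (fun d => Nat.ble (Nat.mul d d) p))
      (fb (Nat.sub q b) (fun d => Nat.ble (Nat.mul d d) p)) false))

/-- `x ≤ E n` -/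
noncomputable def fV (E : ℕ) (x _ _ n : ℕ) : Bool := Nat.ble x (Nat.mul E n)

/-- the pointwise inequality `(b - O n)² ≤ a c` on the level `N` -/
noncomputable def cB (W v fu N O a b c : ℕ) : Bool :=
  upr W v fu N 0 1 (fun F => ck4 W W (fB O) fu N N a b c F)

/-- the pointwise inequality `x ≤ E n` on the level `N` -/
noncomputable def cV (W v fu N E x : ℕ) : Bool :=
  upr W v fu N 0 1 (fun F => ck4 W W (fV E) fu N N x 0 0 F)

theorem fB_true {O a b c n : ℕ} (h : fB O a b c n = true) :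
    ((b : ℝ) - O * n) ^ 2 ≤ a * c := by
  obtain ⟨h1, h2⟩ := cond_tt h
  have h3 : (b - O * n) * (b - O * n) ≤ a * c := ble_true h1
  have h4 : (O * n - b) * (O * n - b) ≤ a * c := ble_true h2
  rcases le_total (O * n) b with h | h
  · have h5 : ((b - O * n : ℕ) : ℝ) * ((b - O * n : ℕ) : ℝ) ≤ a * c := by exact_mod_cast h3
    rw [Nat.cast_sub h] at h5
    push_cast at h5
    rw [pow_two]
    exact h5
  · have h5 : ((O * n - b : ℕ) : ℝ) * ((O * n - b : ℕ) : ℝ) ≤ a * c := by exact_mod_cast h4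
    rw [Nat.cast_sub h] at h5
    push_cast at h5
    have e : ((b : ℝ) - O * n) ^ 2 = (O * n - b) * (O * n - b) := by ring
    rw [e]
    exact h5

theorem cB_sound {W v f K c N O xa xb xc : ℕ} (hW : W = 2 ^ (v + 7)) (hp : K + c < 128)
    (hc : N ≤ c) (hK : N ≤ K) (hf : N + N ≤ f) (ha : xa < W ^ cnt c N) (hb : xb < W ^ cnt c N)
    (hxc : xc < W ^ cnt c N) (h : cB W v f N O xa xb xc = true) :
    ∀ B ∈ Lv K N, ((eQ W (K + c) c N xb B : ℝ) - O * (N.factorial * ex B / ex (range K))) ^ 2 ≤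
      (eQ W (K + c) c N xa B : ℝ) * eQ W (K + c) c N xc B := by
  have h2v : 0 < 2 ^ v := pow_pos (by omega) v
  have hW0 : 0 < W := by rw [hW, pow_add]; omega
  have hs0 : Syt W K c 0 1 := Syt_zero (by rw [hW, pow_add]; omega)
  obtain ⟨F, hF, h3⟩ := upr_sound hW hp _ N 0 1 (by omega) (by omega) (by omega) hs0 h
  rw [zero_add] at hF
  intro B hB
  have h4 := ck4_sound hW0 hW0 f c N xa xb xc F (by rw [min_eq_right hc]; exact h3) ha hb hxc
    hF.1 (K + c) B (Vd_lv hB hc)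
  have h5 := fB_true h4
  have h6 : (eQ W (K + c) c N F B : ℝ) = N.factorial * ex B / ex (range K) := by
    rw [eq_div_iff (ex_pos _).ne']
    exact hF.2 B hB
  rw [h6] at h5
  exact h5

theorem cV_sound {W v f K c N E x : ℕ} (hW : W = 2 ^ (v + 7)) (hp : K + c < 128)
    (hc : N ≤ c) (hK : N ≤ K) (hf : N + N ≤ f) (hx : x < W ^ cnt c N)
    (h : cV W v f N E x = true) :
    ∀ B ∈ Lv K N, (eQ W (K + c) c N x B : ℝ) ≤ E * (N.factorial * ex B / ex (range K)) := by
  have h2v : 0 < 2 ^ v := pow_pos (by omega) v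
  have hW0 : 0 < W := by rw [hW, pow_add]; omega
  have hs0 : Syt W K c 0 1 := Syt_zero (by rw [hW, pow_add]; omega)
  obtain ⟨F, hF, h3⟩ := upr_sound hW hp _ N 0 1 (by omega) (by omega) (by omega) hs0 h
  rw [zero_add] at hF
  intro B hB
  have h0 : 0 < W ^ cnt c N := pow_pos hW0 _
  have h4 := ck4_sound hW0 hW0 f c N x 0 0 F (by rw [min_eq_right hc]; exact h3) hx h0 h0
    hF.1 (K + c) B (Vd_lv hB hc)
  have h5 : eQ W (K + c) c N x B ≤ E * eQ W (K + c) c N F B := ble_true h4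
  have h6 : (eQ W (K + c) c N F B : ℝ) = N.factorial * ex B / ex (range K) := by
    rw [eq_div_iff (ex_pos _).ne']
    exact hF.2 B hB
  rw [← h6]
  exact_mod_cast h5

/-- the conditions on the parameters (two-class form); `k = N - t`, tables on the level `N = k + t` -/
noncomputable def cP2 (W v f k t hi U dA a1 a2 DB b1 b2 dC c1 c2 : ℕ) : Bool :=
  cond (Nat.beq W (Nat.pow 2 (Nat.add v 7)))
  (cond (lt' (Nat.add (Nat.mul 2 (Nat.add k t)) 1) 128) (cond (lt' (Nat.mul 2 (Nat.add k t)) f)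
  (cond (lt' 0 k) (cond (lt' 0 U)
  (cond (lt' (Nat.mul U a1) (Nat.pow 2 v)) (cond (lt' (Nat.mul U b1) (Nat.pow 2 v))
  (cond (lt' (Nat.mul U c1) (Nat.pow 2 v))
  (cond (lt' (Nat.add (Nat.mul (Nat.mul U dA) hi) (Nat.mul U a2)) W)
  (cond (lt' (Nat.add (Nat.mul (Nat.mul U DB) hi) (Nat.mul U b2)) W)
  (cond (lt' (Nat.add (Nat.mul (Nat.mul U dC) hi) (Nat.mul U c2)) W) true false)
  false) false) false) false) false) false) false) false) false) false

end Pool.JM.Pack
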