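import Pool.Agent.Work.MP_46fa68_48c.UpQ
import Pool.Agent.Work.MP_46fa68_28.Joint

/-!
# MP_46fa68_co: packed tables on all shapes, the linear conditions

All partitions of `r` (parts at most `r`) are packed. `dni` adds boxes (restriction), `uni` removes boxes
(numbers of standard tableaux). `lin` checks that the restriction of a table at the level `m + j` to the
level `m` is `D` times the numbers of standard tableaux, up to the value at the one-row shape.
-/

set_option autoImplicit false

open Finset Equiv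

namespace Pool.JM.Pack

/-! ### functions for the kernel -/

/-- iterated restriction from the level `r` -/
noncomputable def dni (W fu : ℕ) : ℕ → ℕ → ℕ → ℕ :=
  Nat.rec (fun _ x => x) (fun _ ih r x => ih (Nat.pred r) (dqf W fu r r x))

/-- iterated restriction with bounds of the digits; the result is passed to `κ` -/
noncomputable def dnr (W v fu : ℕ) : ℕ → ℕ → ℕ → (ℕ → Bool) → Bool :=
  Nat.rec (fun _ x κ => κ x)
    (fun _ ih r x κ => cond (msk W v (cnt r r) x)
      (fb (dqf W fu r r x) (fun y => ih (Nat.pred r) y κ)) false)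

/-- iterated `uq` with bounds of the digits; the result is passed to `κ` -/
noncomputable def upr (W v fu : ℕ) : ℕ → ℕ → ℕ → (ℕ → Bool) → Bool :=
  Nat.rec (fun _ x κ => κ x)
    (fun _ ih r x κ => cond (msk W v (cnt r r) x)
      (fb (uq W fu (Nat.succ r) r x) (fun y => ih (Nat.succ r) y κ)) false)

/-- the comparison at the level `m` -/
noncomputable def cmp (W v m D S1 S2 F z : ℕ) : Bool :=
  cond (msk W v (cnt m m) z)
    (Nat.beq (Nat.add z (Nat.mul S1 (pw W (Nat.pred m) m)))
      (Nat.add (Nat.mul D F) (Nat.mul S2 (pw W (Nat.pred m) m)))) false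

/-- the linear conditions for a table at the level `m + j` -/
noncomputable def lin (W v fu m j D S1 S2 F x : ℕ) : Bool :=
  dnr W v fu j (Nat.add m j) x (cmp W v m D S1 S2 F)

/-! ### valid sets -/

theorem Vd_lv {K c r : ℕ} {B : Finset ℕ} (hB : B ∈ Lv K r) (h : r ≤ c) : Vd (K + c) c r B := by
  obtain ⟨h1, -, h3, h4⟩ := Lv_spec hB
  refine ⟨fun x hx => mem_range.2 ?_, by omega, by rw [h1]; exact h4⟩
  have := h3 x hx
  omega

theorem cnt_self {c r : ℕ} (h : r ≤ c) : cnt c r = cnt r r := by
  rw [← cnt_min r c, min_eq_right h]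

/-- one restriction, all shapes -/
theorem stepU {W v f K c r x : ℕ} (hW : W = 2 ^ (v + 7)) (hp : K + c < 128) (hr : r + 1 ≤ c)
    (hK : r + 1 ≤ K) (hf : r + 1 + (r + 1) ≤ f) (hx : x < W ^ cnt c (r + 1))
    (hok : msk W v (cnt (r + 1) (r + 1)) x = true) :
    dqf W f (r + 1) (r + 1) x < W ^ cnt c r ∧ ∀ B, Vd (K + c) c r B →
      eQ W (K + c) c r (dqf W f (r + 1) (r + 1) x) B =
        Dg (K + c) (eQ W (K + c) c (r + 1) x) B := by
  have h0 : 0 < 2 ^ v := pow_pos (by omega) v
  have hv : (K + c) * 2 ^ v < W := by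
    rw [hW, pow_add, mul_comm]
    exact Nat.mul_lt_mul_of_pos_left hp h0
  have hW0 : 0 < W := lt_of_le_of_lt (Nat.zero_le _) hv
  have hvW : 2 ^ v ≤ W := by
    rw [hW, pow_add]
    omega
  rw [← cnt_self hr] at hok
  have h1 : ∀ C, eQ W (K + c) c (r + 1) x C < 2 ^ v := fun C => msk_sound hW hx hok C
  have h2 := pk_eQ hW0 (K + c) c (r + 1) x (by omega) hx
  have h3 := dq_pk f c r (K + c) (eQ W (K + c) c (r + 1) x)
    (fun C => lt_of_lt_of_le (h1 C) hvW) (by rw [min_eq_right hr]; exact hf)
  rw [min_eq_right hr, h2, ← dqf_eq hW0 f (r + 1) (r + 1) x le_rfl hf (by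
    rwa [cnt_self hr] at hx)] at h3
  have h4 : ∀ C, Dg (K + c) (eQ W (K + c) c (r + 1) x) C < W := fun C =>
    lt_of_le_of_lt (Dg_le (fun C => (h1 C).le) C) hv
  rw [h3]
  exact ⟨pk_lt (K + c) c r _ h4, fun B hB => eQ_pk (K + c) c r _ B h4 hB⟩

theorem Ug_le {hi p : ℕ} {g : Finset ℕ → ℕ} (hg : ∀ C, g C ≤ hi) (C : Finset ℕ) :
    Ug p g C ≤ p * hi := by
  unfold Ug
  refine (sum_le_card_nsmul (range (p - 1)) _ hi fun y _ => ?_).trans ?_
  · split_ifs
    · exact hg _
    · exact Nat.zero_le _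
  · rw [card_range, smul_eq_mul]
    exact Nat.mul_le_mul_right _ (Nat.sub_le _ _)

/-- one step up, all shapes -/
theorem stepV {W v f K c r x : ℕ} (hW : W = 2 ^ (v + 7)) (hp : K + c < 128) (hr : r + 1 ≤ c)
    (hK : r + 1 ≤ K) (hf : r + 1 + (r + 1) ≤ f) (hx : x < W ^ cnt c r)
    (hok : msk W v (cnt r r) x = true) :
    uq W f (r + 1) r x < W ^ cnt c (r + 1) ∧ ∀ B, Vd (K + c) c (r + 1) B →
      eQ W (K + c) c (r + 1) (uq W f (r + 1) r x) B = Ug (K + c) (eQ W (K + c) c r x) B := by
  have h0 : 0 < 2 ^ v := pow_pos (by omega) v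
  have hv : (K + c) * 2 ^ v < W := by
    rw [hW, pow_add, mul_comm]
    exact Nat.mul_lt_mul_of_pos_left hp h0
  have hW0 : 0 < W := lt_of_le_of_lt (Nat.zero_le _) hv
  have hvW : 2 ^ v ≤ W := by
    rw [hW, pow_add]
    omega
  rw [← cnt_self (by omega : r ≤ c)] at hok
  have h1 : ∀ C, eQ W (K + c) c r x C < 2 ^ v := fun C => msk_sound hW hx hok C
  have h2 := pk_eQ hW0 (K + c) c r x (by omega) hx
  have h3 := uq_pk f c r (K + c) (eQ W (K + c) c r x)
    (fun C => lt_of_lt_of_le (h1 C) hvW) (by omega) (by rw [min_eq_right hr]; exact hf)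
  rw [min_eq_right hr, h2] at h3
  have h4 : ∀ C, Ug (K + c) (eQ W (K + c) c r x) C < W := fun C =>
    lt_of_le_of_lt (Ug_le (fun C => (h1 C).le) C) hv
  rw [h3]
  exact ⟨pk_lt (K + c) c (r + 1) _ h4, fun B hB => eQ_pk (K + c) c (r + 1) _ B h4 hB⟩

/-! ### the numbers of standard tableaux -/

theorem Ug_rm {p : ℕ} {g : Finset ℕ → ℕ} {B : Finset ℕ} (hB : B ⊆ range p) :
    Ug p g B = ∑ x ∈ rm B, g (mvd B x) := by
  unfold Ug
  rw [← sum_filter]
  refine sum_nbij (fun y => y + 1) ?_ ?_ ?_ ?_
  · intro y hy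
    rw [mem_filter] at hy
    exact mem_rm.2 ⟨hy.2.1, by omega, by rw [Nat.add_sub_cancel]; exact hy.2.2⟩
  · intro y _ y' _ hyy
    exact Nat.succ_injective hyy
  · intro x hx
    obtain ⟨h1, h2, h3⟩ := mem_rm.1 (mem_coe.1 hx)
    refine ⟨x - 1, ?_, by change x - 1 + 1 = x; omega⟩
    rw [mem_coe, mem_filter]
    have h4 := mem_range.1 (hB h1)
    exact ⟨mem_range.2 (by omega), by rw [Nat.sub_add_cancel h2]; exact h1, h3⟩
  · intro y _
    rfl

/-- `x` packs the numbers of standard tableaux of level `r` -/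
def Syt (W K c r x : ℕ) : Prop :=
  x < W ^ cnt c r ∧ ∀ B ∈ Lv K r,
    (eQ W (K + c) c r x B : ℝ) * ex (range K) = (r.factorial : ℝ) * ex B

theorem Syt_zero {W K c : ℕ} (hW : 2 ≤ W) : Syt W K c 0 1 := by
  refine ⟨?_, ?_⟩
  · rw [cnt_self (Nat.zero_le c), cnt_zero_zero, pow_one]
    omega
  · intro B hB
    have h1 : (1 : ℕ) = pk W (K + c) c 0 (fun _ => 1) := by
      have : ∀ (c p : ℕ), c ≤ p → pk W p c 0 (fun _ => 1) = 1 := by
        intro c
        induction c with
        | zero => intro p _; rw [pk_col_zero]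
        | succ c ih =>
          intro p hp
          obtain ⟨p, rfl⟩ : ∃ p', p = p' + 1 := ⟨p - 1, by omega⟩
          unfold pk
          rw [if_neg (by omega), add_zero]
          exact ih p (by omega)
      rw [this c (K + c) (by omega)]
    have h2 : eQ W (K + c) c 0 1 B = 1 := by
      conv_lhs => rw [h1]
      exact eQ_pk _ _ _ _ _ (fun _ => by omega) (Vd_lv hB (Nat.zero_le c))
    simp only [Lv, mem_singleton] at hB
    rw [h2, hB]
    simp

theorem Syt_succ {W v f K c r x : ℕ} (hW : W = 2 ^ (v + 7)) (hp : K + c < 128) (hr : r + 1 ≤ c)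
    (hK : r + 1 ≤ K) (hf : r + 1 + (r + 1) ≤ f) (hx : Syt W K c r x)
    (hok : msk W v (cnt r r) x = true) : Syt W K c (r + 1) (uq W f (r + 1) r x) := by
  obtain ⟨h1, h2⟩ := stepV hW hp hr hK hf hx.1 hok
  refine ⟨h1, fun B hB => ?_⟩
  rw [h2 B (Vd_lv hB hr), Ug_rm (Vd_lv hB hr).1]
  have h3 := sum_rm_ex hB
  rw [Nat.factorial_succ]
  push_cast at h3 ⊢
  rw [sum_mul, mul_comm ((r : ℝ) + 1), mul_assoc, ← h3, mul_sum]
  refine sum_congr rfl fun y hy => ?_
  exact hx.2 (mvd B y) (mvd_mem hB hy)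

/-- the iteration -/
theorem upr_sound {W v f K c : ℕ} (hW : W = 2 ^ (v + 7)) (hp : K + c < 128) (κ : ℕ → Bool) :
    ∀ (j r x : ℕ), r + j ≤ c → r + j ≤ K → r + j + (r + j) ≤ f → Syt W K c r x →
      upr W v f j r x κ = true → ∃ y, Syt W K c (r + j) y ∧ κ y = true := by
  intro j
  induction j with
  | zero => intro r x _ _ _ hx h; exact ⟨x, hx, h⟩
  | succ j ih =>
    intro r x h1 h2 h3 hx h
    have h' : cond (msk W v (cnt r r) x) (upr W v f j (r + 1) (uq W f (r + 1) r x) κ) false =
      true := h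
    obtain ⟨h4, h5⟩ := cond_tt h'
    have h6 := Syt_succ hW hp (by omega) (by omega) (by omega : r + 1 + (r + 1) ≤ f) hx h4
    obtain ⟨y, hy, hy'⟩ := ih (r + 1) _ (by omega) (by omega) (by omega) h6 h5
    exact ⟨y, by rwa [show r + (j + 1) = r + 1 + j by omega], hy'⟩

/-! ### the restriction -/

theorem Dg_ad {p : ℕ} {g : Finset ℕ → ℕ} {C : Finset ℕ} (h : ∀ x ∈ C, x + 1 < p) :
    Dg p g C = ∑ x ∈ ad C, g (mv C x) := by
  unfold Dg
  rw [← sum_filter]
  refine sum_congr ?_ fun _ _ => rfl
  ext x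
  rw [mem_filter, mem_ad, mem_range]
  constructor
  · exact fun h => h.2
  · exact fun hx => ⟨by have := h x hx.1; omega, hx⟩

theorem dnr_sound {W v f K c : ℕ} (hW : W = 2 ^ (v + 7)) (hp : K + c < 128) (κ : ℕ → Bool) :
    ∀ (j r x : ℕ), r + j ≤ c → r + j ≤ K → r + j + (r + j) ≤ f → x < W ^ cnt c (r + j) →
      dnr W v f j (r + j) x κ = true →
      κ (dni W f j (r + j) x) = true ∧ dni W f j (r + j) x < W ^ cnt c r ∧
      ∀ i < j, ∀ C ∈ Lv K (r + i),
        eQ W (K + c) c (r + i) (dni W f (j - i) (r + j) x) C =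
          ∑ y ∈ ad C, eQ W (K + c) c (r + i + 1) (dni W f (j - (i + 1)) (r + j) x) (mv C y) := by
  intro j
  induction j with
  | zero =>
    intro r x _ _ _ hx h
    exact ⟨h, hx, fun i hi => absurd hi (Nat.not_lt_zero i)⟩
  | succ j ih =>
    intro r x h1 h2 h3 hx h
    have h' : cond (msk W v (cnt (r + j + 1) (r + j + 1)) x)
      (dnr W v f j (r + j) (dqf W f (r + j + 1) (r + j + 1) x) κ) false = true := h
    obtain ⟨h4, h5⟩ := cond_tt h'
    obtain ⟨h6, h7⟩ := stepU (r := r + j) hW hp (by omega) (by omega) (by omega) hx h4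
    obtain ⟨h8, h9, h10⟩ := ih r _ (by omega) (by omega) (by omega) h6 h5
    refine ⟨h8, h9, fun i hi C hC => ?_⟩
    rcases Nat.lt_or_ge i j with hij | hij
    · have e := h10 i hij C hC
      have e1 : j + 1 - i = (j - i) + 1 := by omega
      have e2 : j + 1 - (i + 1) = (j - (i + 1)) + 1 := by omega
      rw [e1, e2]
      exact e
    · obtain rfl : i = j := by omega
      have e1 : i + 1 - i = 1 := by omega
      rw [e1, Nat.sub_self]
      change eQ W (K + c) c (r + i) (dqf W f (r + i + 1) (r + i + 1) x) C =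
        ∑ y ∈ ad C, eQ W (K + c) c (r + i + 1) x (mv C y)
      rw [h7 C (Vd_lv hC (by omega)), Dg_ad]
      intro y hy
      have := (Lv_spec hC).2.2.1 y hy
      omega

/-- the function of a table on all levels -/
noncomputable def hfn (W f K c N x : ℕ) (B : Finset ℕ) : ℝ :=
  (eQ W (K + c) c (lev K B) (dni W f (N - lev K B) N x) B : ℝ) / ex B

theorem hfn_top {W f K c N x : ℕ} {B : Finset ℕ} (hB : B ∈ Lv K N) :
    hfn W f K c N x B = (eQ W (K + c) c N x B : ℝ) / ex B := by
  unfold hfn
  rw [lev_of hB, Nat.sub_self]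
  rfl

theorem Harm_hfn {W v f K c m j x : ℕ} (hW : W = 2 ^ (v + 7)) (hp : K + c < 128)
    (hc : m + j ≤ c) (hK : m + j ≤ K) (hf : m + j + (m + j) ≤ f) (hx : x < W ^ cnt c (m + j))
    {κ : ℕ → Bool} (h : dnr W v f j (m + j) x κ = true) :
    Harm K m (m + j) (hfn W f K c (m + j) x) := by
  obtain ⟨-, -, h3⟩ := dnr_sound hW hp κ j m x hc hK hf hx h
  intro k hk hk' C hC
  have e := h3 (k - m) (by omega) C (by rwa [show m + (k - m) = k by omega])
  rw [show m + (k - m) = k by omega, show j - (k - m) = m + j - k by omega,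
    show j - (k - m + 1) = m + j - (k + 1) by omega] at e
  have h4 := ex_pos C
  unfold hfn
  rw [lev_of hC, e]
  push_cast
  rw [sum_div]
  refine sum_congr rfl fun y hy => ?_
  rw [lev_of (mv_mem hC hy), ex_mv hy]
  have h5 := (Cert.w_pos' hy).ne'
  have h6 := h4.ne'
  field_simp

/-! ### the level `m` -/

theorem pk_level_zero {W : ℕ} : ∀ (c p : ℕ) (g : Finset ℕ → ℕ), c ≤ p →
    pk W p c 0 g = g (range (p - c)) := by
  intro c
  induction c with
  | zero => intro p g _; rw [pk_col_zero, Nat.sub_zero]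
  | succ c ih =>
    intro p g h
    obtain ⟨p, rfl⟩ : ∃ p', p = p' + 1 := ⟨p - 1, by omega⟩
    unfold pk
    rw [if_neg (by omega), add_zero, ih p g (by omega), Nat.add_sub_add_right]

theorem pk_delta {W K m S : ℕ} (hm : 1 ≤ m) (hK : 1 ≤ K) : ∀ c : ℕ, m ≤ c →
    pk W (K + c) c m (fun B => if B = Rw K m then S else 0) = S * W ^ cnt (m - 1) m := by
  intro c
  induction c with
  | zero => intro h; omega
  | succ c ih =>
    intro h
    rcases Nat.lt_or_ge c m with hc | hc
    · obtain rfl : m = c + 1 := by omega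
      change pk W (K + c) c (c + 1) _ + (if c + 1 ≤ c + 1 then W ^ cnt c (c + 1) *
        pk W (K + c) (c + 1) (c + 1 - (c + 1)) (fun C => _) else 0) = _
      rw [if_pos le_rfl, Nat.sub_self, pk_level_zero _ _ _ (by omega),
        pk_congr (K + c) c (c + 1) _ (fun _ => 0) (fun C hC => if_neg fun h => by
          have h1 : K - 1 + (c + 1) ∈ C := by
            rw [h]
            exact mem_insert_self _ _
          have := mem_range.1 (hC h1)
          omega), pk_zero, zero_add, Nat.add_sub_cancel]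
      change W ^ cnt c (c + 1) * (if insert (K + c) (range (K + c - (c + 1))) = Rw K (c + 1)
        then S else 0) = _
      rw [if_pos, mul_comm]
      unfold Rw
      rw [show K - 1 + (c + 1) = K + c by omega, show K + c - (c + 1) = K - 1 by omega]
    · change pk W (K + c) c m _ + (if c + 1 ≤ m then _ else 0) = _
      rw [if_neg (by omega), add_zero]
      exact ih hc

theorem cmp_sound {W v K c m D S1 S2 F z hi fu : ℕ} (hW : W = 2 ^ (v + 7)) (hm : 1 ≤ m)
    (hc : m ≤ c) (hK : m ≤ K) (hz : z < W ^ cnt c m) (hF : F < W ^ cnt c m)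
    (hS1 : S1 < 2 ^ v) (hD : D * hi + S2 < W) (hok : okq W 0 hi fu m m F = true)
    (h : cmp W v m D S1 S2 F z = true) {B : Finset ℕ} (hB : B ∈ Lv K m) :
    eQ W (K + c) c m z B + (if B = Rw K m then S1 else 0) =
      D * eQ W (K + c) c m F B + (if B = Rw K m then S2 else 0) := by
  have h0 : 0 < 2 ^ v := pow_pos (by omega) v
  have hWv : 2 ^ v * 128 = W := by
    rw [hW, pow_add]
    norm_num
  have hW0 : 0 < W := by omega
  obtain ⟨h1, h2⟩ := cond_tt h
  have h3 := Nat.eq_of_beq_eq_true h2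
  have h3' : z + S1 * W ^ cnt (m - 1) m = D * F + S2 * W ^ cnt (m - 1) m := h3
  rw [← cnt_self hc] at h1
  have h4 : ∀ C, eQ W (K + c) c m z C < 2 ^ v := fun C => msk_sound hW hz h1 C
  have hF' : F < W ^ cnt m m := by rwa [cnt_self hc] at hF
  have h5 : ∀ C, D * eQ W (K + c) c m F C + S2 < W := by
    intro C
    rcases Nat.eq_zero_or_pos D with hD0 | hD0
    · rw [hD0, zero_mul, zero_add] at hD ⊢
      exact hD
    have hhi : hi < W := by
      have := Nat.le_mul_of_pos_left hi hD0
      omega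
    have h6 := (okq_sound hhi fu c m F (by rwa [min_eq_right hc]) (by
      rwa [cnt_self hc]) (K + c) C).1
    have := Nat.mul_le_mul_left D h6
    omega
  have e1 : pk W (K + c) c m (fun C => eQ W (K + c) c m z C + if C = Rw K m then S1 else 0) =
      z + S1 * W ^ cnt (m - 1) m := by
    rw [pk_add, pk_eQ hW0 _ _ _ _ (by omega) hz, pk_delta hm (by omega) c hc]
  have e2 : pk W (K + c) c m (fun C => D * eQ W (K + c) c m F C +
      if C = Rw K m then S2 else 0) = D * F + S2 * W ^ cnt (m - 1) m := by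
    have e3 : ∀ D : ℕ, pk W (K + c) c m (fun C => D * eQ W (K + c) c m F C) = D * F := by
      intro D
      induction D with
      | zero =>
        rw [zero_mul, pk_congr _ _ _ _ (fun _ => 0) (fun C _ => zero_mul _), pk_zero]
      | succ D ih =>
        rw [pk_congr _ _ _ _ (fun C => D * eQ W (K + c) c m F C + eQ W (K + c) c m F C)
          (fun C _ => by ring), pk_add, ih, pk_eQ hW0 _ _ _ _ (by omega) hF]
        ring
    rw [pk_add, e3, pk_delta hm (by omega) c hc]
  have hv := Vd_lv hB hc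
  have f1 := eQ_pk (W := W) (K + c) c m
    (fun C => eQ W (K + c) c m z C + if C = Rw K m then S1 else 0) B (fun C => by
      change eQ W (K + c) c m z C + (if C = Rw K m then S1 else 0) < W
      have := h4 C
      split_ifs <;> omega) hv
  have f2 := eQ_pk (W := W) (K + c) c m
    (fun C => D * eQ W (K + c) c m F C + if C = Rw K m then S2 else 0) B (fun C => by
      change D * eQ W (K + c) c m F C + (if C = Rw K m then S2 else 0) < W
      have := h5 C
      split_ifs <;> omega) hv
  rw [e1] at f1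
  rw [e2, ← h3', f1] at f2
  exact f2

/-- the values at the level `m` -/
theorem hfn_level {W v f K c m j D S1 S2 F x hi fu : ℕ} (hW : W = 2 ^ (v + 7))
    (hp : K + c < 128) (hm : 1 ≤ m) (hc : m + j ≤ c) (hK : m + j ≤ K)
    (hf : m + j + (m + j) ≤ f) (hx : x < W ^ cnt c (m + j)) (hF : Syt W K c m F)
    (hS1 : S1 < 2 ^ v) (hD : D * hi + S2 < W) (hok : okq W 0 hi fu m m F = true)
    (h : lin W v f m j D S1 S2 F x = true) {B : Finset ℕ} (hB : B ∈ Lv K m) :
    hfn W f K c (m + j) x B = (m.factorial / ex (range K)) *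
      (D - if B = Rw K m then (S1 : ℝ) - S2 else 0) := by
  have h' : dnr W v f j (m + j) x (cmp W v m D S1 S2 F) = true := h
  obtain ⟨h1, h2, -⟩ := dnr_sound hW hp _ j m x hc hK hf hx h'
  have h3 := cmp_sound hW hm (by omega : m ≤ c) (by omega) h2 hF.1 hS1 hD hok h1 hB
  have h4 := hF.2 B hB
  have h5 := (ex_pos B).ne'
  have h6 := (ex_pos (range K)).ne'
  unfold hfn
  rw [lev_of hB, Nat.add_sub_cancel_left]
  have h7 : (eQ W (K + c) c m (dni W f j (m + j) x) B : ℝ) + (if B = Rw K m then (S1 : ℝ) else 0) =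
      D * eQ W (K + c) c m F B + (if B = Rw K m then (S2 : ℝ) else 0) := by
    have := congrArg (Nat.cast : ℕ → ℝ) h3
    push_cast at this
    exact this
  have h8 : (eQ W (K + c) c m F B : ℝ) = m.factorial * ex B / ex (range K) := by
    rw [← h4]
    field_simp
  by_cases hR : B = Rw K m
  · rw [if_pos hR] at h7 ⊢
    rw [if_pos hR] at h7
    -- the one-row shape has one tableau
    have h9 : (m.factorial : ℝ) * ex B / ex (range K) = 1 := by
      have : ex (Rw K m) * m.factorial = ex (range K) := by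
        have h10 : ∀ k : ℕ, ex (Rw K k) * k.factorial = ex (range K) := by
          intro k
          induction k with
          | zero => rw [Rw_zero (by omega)]; simp
          | succ k ih =>
            have hh := sum_rm_ex (Rw_mem (by omega : 0 < K) (k + 1))
            have hrm : rm (Rw K (k + 1)) = {K - 1 + (k + 1)} := by
              ext y
              rw [mem_rm, mem_singleton]
              simp only [Rw, mem_insert, mem_range]
              omega
            rw [hrm, sum_singleton] at hh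
            have hmv : mvd (Rw K (k + 1)) (K - 1 + (k + 1)) = Rw K k := by
              ext y
              simp only [mvd, Rw, mem_insert, mem_erase, mem_range]
              omega
            rw [hmv] at hh
            rw [Nat.factorial_succ]
            push_cast at hh ⊢
            rw [← ih, hh]
            ring
        exact h10 m
      rw [hR, mul_comm, this, div_self h6]
    rw [h8, h9] at h7
    have h10 : (m.factorial : ℝ) / ex (range K) = 1 / ex B := by
      rw [div_eq_div_iff h6 h5]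
      rw [div_eq_iff h6] at h9
      linarith
    rw [h10]
    have : (eQ W (K + c) c m (dni W f j (m + j) x) B : ℝ) = D - (S1 - S2) := by linarith
    rw [this]
    ring
  · rw [if_neg hR] at h7 ⊢
    rw [if_neg hR] at h7
    rw [add_zero, add_zero, h8] at h7
    rw [h7, sub_zero]
    field_simp

end Pool.JM.Pack
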