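import Pool.Agent.Work.MP_46fa68_48c.Lin

/-!
# MP_46fa68_co: packed tables, pointwise maps and tests, the variance condition
-/

set_option autoImplicit false

open Finset Equiv

namespace Pool.JM.Pack

/-! ### functions for the kernel -/

/-- `g a b c`, the kernel evaluates the arguments first -/
noncomputable def m3 (g : ℕ → ℕ → ℕ → ℕ) (a b c : ℕ) : ℕ :=
  fc a (fun a => fc b (fun b => fc c (g a b)))

/-- `g a b c d`, the kernel evaluates the arguments first -/
noncomputable def m4 (g : ℕ → ℕ → ℕ → ℕ → Bool) (a b c d : ℕ) : Bool :=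
  fb a (fun a => fb b (fun b => fb c (fun c => fb d (g a b c))))

/-- pointwise map of three packed functions in base `W`, the result in base `W'` -/
noncomputable def mp3 (W W' : ℕ) (φ : ℕ → ℕ → ℕ → ℕ) : ℕ → ℕ → ℕ → ℕ → ℕ → ℕ → ℕ :=
  Nat.rec (fun _ _ _ _ _ => 0)
    (fun _ ih c r x y z => Nat.rec (φ x y z) (fun c1 _ => Nat.rec (φ x y z)
      (fun _ _ => fc (Nat.sub r c) (fun s => fc (mn c s) (fun cs => fc (pw W c1 r) (fun M =>
        Nat.add (m3 (ih c1 r) (Nat.mod x M) (Nat.mod y M) (Nat.mod z M))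
          (Nat.mul (pw W' c1 r) (m3 (ih cs s) (Nat.div x M) (Nat.div y M) (Nat.div z M)))))))
      c1) c)

/-- pointwise test of three packed functions in base `W'` and one in base `W` -/
noncomputable def ck4 (W' W : ℕ) (φ : ℕ → ℕ → ℕ → ℕ → Bool) :
    ℕ → ℕ → ℕ → ℕ → ℕ → ℕ → ℕ → Bool :=
  Nat.rec (fun _ _ _ _ _ _ => false)
    (fun _ ih c r x y z u => Nat.rec (φ x y z u) (fun c1 _ => Nat.rec (φ x y z u)
      (fun _ _ => fb (Nat.sub r c) (fun s => fb (mn c s) (fun cs => fb (pw W' c1 r) (fun M =>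
        fb (pw W c1 r) (fun L =>
          cond (m4 (ih c1 r) (Nat.mod x M) (Nat.mod y M) (Nat.mod z M) (Nat.mod u L))
            (m4 (ih cs s) (Nat.div x M) (Nat.div y M) (Nat.div z M) (Nat.div u L)) false)))))
      c1) c)

/-! ### soundness -/

theorem eQ_in {W p c r x : ℕ} {B : Finset ℕ} (hp : p ∈ B) (hr : c + 1 ≤ r) :
    eQ W (p + 1) (c + 1) r x B = eQ W p (c + 1) (r - (c + 1)) (x / W ^ cnt c r) B := by
  conv_lhs => unfold eQ
  rw [if_pos hp, if_pos hr]

theorem eQ_out {W p c r x : ℕ} {B : Finset ℕ} (hp : p ∉ B) :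
    eQ W (p + 1) (c + 1) r x B = eQ W p c r (x % W ^ cnt c r) B := by
  conv_lhs => unfold eQ
  rw [if_neg hp]

theorem mp3_succ (W W' : ℕ) (φ : ℕ → ℕ → ℕ → ℕ) (f c r x y z : ℕ) :
    mp3 W W' φ (f + 1) (c + 2) r x y z =
      mp3 W W' φ f (c + 1) r (x % W ^ cnt (c + 1) r) (y % W ^ cnt (c + 1) r)
        (z % W ^ cnt (c + 1) r) + W' ^ cnt (c + 1) r *
      mp3 W W' φ f (min (c + 2) (r - (c + 2))) (r - (c + 2)) (x / W ^ cnt (c + 1) r)
        (y / W ^ cnt (c + 1) r) (z / W ^ cnt (c + 1) r) := by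
  rw [← mn_eq]
  rfl

theorem ck4_succ (W' W : ℕ) (φ : ℕ → ℕ → ℕ → ℕ → Bool) (f c r x y z u : ℕ) :
    ck4 W' W φ (f + 1) (c + 2) r x y z u =
      cond (ck4 W' W φ f (c + 1) r (x % W' ^ cnt (c + 1) r) (y % W' ^ cnt (c + 1) r)
        (z % W' ^ cnt (c + 1) r) (u % W ^ cnt (c + 1) r))
      (ck4 W' W φ f (min (c + 2) (r - (c + 2))) (r - (c + 2)) (x / W' ^ cnt (c + 1) r)
        (y / W' ^ cnt (c + 1) r) (z / W' ^ cnt (c + 1) r) (u / W ^ cnt (c + 1) r)) false := by
  rw [← mn_eq]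
  rfl

theorem div_lt_cnt {W c r x : ℕ} (hr : c + 1 ≤ r) (hx : x < W ^ cnt (c + 1) r) :
    x / W ^ cnt c r < W ^ cnt (c + 1) (r - (c + 1)) := by
  rw [cnt_succ_le hr, pow_add] at hx
  exact Nat.div_lt_of_lt_mul hx

theorem mp3_sound {W W' : ℕ} (hW : 0 < W) (hW' : 0 < W') {φ : ℕ → ℕ → ℕ → ℕ}
    (hφ : ∀ a b d, a < W → b < W → d < W → φ a b d < W') : ∀ (f c r x y z : ℕ),
    min c r + r < f → (1 ≤ c ∨ r = 0) → x < W ^ cnt c r → y < W ^ cnt c r → z < W ^ cnt c r →
    mp3 W W' φ f (min c r) r x y z < W' ^ cnt c r ∧ ∀ p B, Vd p c r B →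
      eQ W' p c r (mp3 W W' φ f (min c r) r x y z) B =
        φ (eQ W p c r x B) (eQ W p c r y B) (eQ W p c r z B) := by
  intro f
  induction f with
  | zero => intro c r x y z h; omega
  | succ f ihf =>
    intro c
    induction c with
    | zero =>
      intro r x y z _ hc hx hy hz
      obtain rfl : r = 0 := by omega
      rw [cnt_zero_zero, pow_one] at hx hy hz
      rw [Nat.zero_min, cnt_zero_zero, pow_one]
      refine ⟨hφ x y z hx hy hz, fun p B hB => ?_⟩
      obtain ⟨-, h2⟩ := Vd_col_zero hB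
      rw [eQ_col_zero, eQ_col_zero, eQ_col_zero, eQ_col_zero, if_pos h2, if_pos h2, if_pos h2,
        if_pos h2]
      rfl
    | succ c ihc =>
      intro r x y z hf hc hx hy hz
      rcases Nat.lt_or_ge r (c + 1) with hr | hr
      · have e : min (c + 1) r = min c r := by
          rw [min_eq_right (by omega), min_eq_right (by omega)]
        have e2 : cnt (c + 1) r = cnt c r := cnt_succ_lt (by omega)
        rw [e2] at hx hy hz ⊢
        rw [e] at hf ⊢
        obtain ⟨i1, i2⟩ := ihc r x y z hf (by omega) hx hy hz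
        refine ⟨i1, fun p B hB => ?_⟩
        cases p with
        | zero => exact absurd (Vd_zero hB).1 (by omega)
        | succ p =>
          by_cases hp : p ∈ B
          · exact absurd (Vd_in hB hp).1 (by omega)
          · rw [eQ_out hp, eQ_out hp, eQ_out hp, eQ_out hp, Nat.mod_eq_of_lt i1,
              Nat.mod_eq_of_lt hx, Nat.mod_eq_of_lt hy, Nat.mod_eq_of_lt hz]
            exact i2 p B (Vd_out hB hp)
      · rw [min_eq_left hr] at hf ⊢
        cases c with
        | zero =>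
          rw [zero_add, cnt_one, pow_one] at hx hy hz ⊢
          refine ⟨hφ x y z hx hy hz, fun p B hB => ?_⟩
          change eQ W' p 1 r (φ x y z) B = _
          rw [eQ_col_one p r _ B hB (hφ x y z hx hy hz), eQ_col_one p r _ B hB hx,
            eQ_col_one p r _ B hB hy, eQ_col_one p r _ B hB hz]
        | succ c =>
          rw [mp3_succ]
          have hM : 0 < W ^ cnt (c + 1) r := pow_pos hW _
          have hM' : 0 < W' ^ cnt (c + 1) r := pow_pos hW' _
          obtain ⟨i1, i2⟩ := ihf (c + 1) r (x % W ^ cnt (c + 1) r) (y % W ^ cnt (c + 1) r)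
            (z % W ^ cnt (c + 1) r) (by rw [min_eq_left (by omega)]; omega) (by omega)
            (Nat.mod_lt _ hM) (Nat.mod_lt _ hM) (Nat.mod_lt _ hM)
          rw [min_eq_left (by omega : c + 1 ≤ r)] at i1 i2
          obtain ⟨j1, j2⟩ := ihf (c + 2) (r - (c + 2)) (x / W ^ cnt (c + 1) r)
            (y / W ^ cnt (c + 1) r) (z / W ^ cnt (c + 1) r) (by
              have := min_le_left (c + 2) (r - (c + 2))
              omega) (by omega) (div_lt_cnt hr hx) (div_lt_cnt hr hy) (div_lt_cnt hr hz)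
          set lo := mp3 W W' φ f (c + 1) r (x % W ^ cnt (c + 1) r) (y % W ^ cnt (c + 1) r)
            (z % W ^ cnt (c + 1) r) with hlo
          set up := mp3 W W' φ f (min (c + 2) (r - (c + 2))) (r - (c + 2))
            (x / W ^ cnt (c + 1) r) (y / W ^ cnt (c + 1) r) (z / W ^ cnt (c + 1) r) with hup
          have e1 : (lo + W' ^ cnt (c + 1) r * up) % W' ^ cnt (c + 1) r = lo := by
            rw [Nat.add_mul_mod_self_left, Nat.mod_eq_of_lt i1]
          have e2 : (lo + W' ^ cnt (c + 1) r * up) / W' ^ cnt (c + 1) r = up := by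
            rw [Nat.add_mul_div_left _ _ hM', Nat.div_eq_of_lt i1, zero_add]
          refine ⟨?_, fun p B hB => ?_⟩
          · rw [cnt_succ_le hr, pow_add]
            calc lo + W' ^ cnt (c + 1) r * up < W' ^ cnt (c + 1) r * (up + 1) := by
                  rw [mul_add, mul_one, add_comm]
                  exact Nat.add_lt_add_left i1 _
              _ ≤ _ := Nat.mul_le_mul_left _ j1
          · cases p with
            | zero => exact absurd (Vd_zero hB).1 (by omega)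
            | succ p =>
              by_cases hp : p ∈ B
              · rw [eQ_in hp hr, eQ_in hp hr, eQ_in hp hr, eQ_in hp hr, e2, ← eQ_erase,
                  ← eQ_erase (x := x / W ^ cnt (c + 1) r), ← eQ_erase (x := y / W ^ cnt (c + 1) r),
                  ← eQ_erase (x := z / W ^ cnt (c + 1) r)]
                exact j2 p (B.erase p) (Vd_in hB hp).2
              · rw [eQ_out hp, eQ_out hp, eQ_out hp, eQ_out hp, e1]
                exact i2 p B (Vd_out hB hp)

theorem ck4_sound {W' W : ℕ} (hW' : 0 < W') (hW : 0 < W) {φ : ℕ → ℕ → ℕ → ℕ → Bool} :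
    ∀ (f c r x y z u : ℕ), ck4 W' W φ f (min c r) r x y z u = true → x < W' ^ cnt c r →
    y < W' ^ cnt c r → z < W' ^ cnt c r → u < W ^ cnt c r → ∀ p B, Vd p c r B →
      φ (eQ W' p c r x B) (eQ W' p c r y B) (eQ W' p c r z B) (eQ W p c r u B) = true := by
  intro f
  induction f with
  | zero =>
    intro c r x y z u h
    exact absurd h Bool.false_ne_true
  | succ f ihf =>
    intro c
    induction c with
    | zero =>
      intro r x y z u h hx hy hz hu p B hB
      rw [Nat.zero_min] at h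
      obtain ⟨h1, h2⟩ := Vd_col_zero hB
      subst h1
      rw [eQ_col_zero, eQ_col_zero, eQ_col_zero, eQ_col_zero, if_pos h2, if_pos h2, if_pos h2,
        if_pos h2]
      exact h
    | succ c ihc =>
      intro r x y z u h hx hy hz hu p B hB
      rcases Nat.lt_or_ge r (c + 1) with hr | hr
      · have e : min (c + 1) r = min c r := by
          rw [min_eq_right (by omega), min_eq_right (by omega)]
        have e2 : cnt (c + 1) r = cnt c r := cnt_succ_lt (by omega)
        rw [e2] at hx hy hz hu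
        rw [e] at h
        cases p with
        | zero => exact absurd (Vd_zero hB).1 (by omega)
        | succ p =>
          by_cases hp : p ∈ B
          · exact absurd (Vd_in hB hp).1 (by omega)
          · rw [eQ_out hp, eQ_out hp, eQ_out hp, eQ_out hp, Nat.mod_eq_of_lt hu,
              Nat.mod_eq_of_lt hx, Nat.mod_eq_of_lt hy, Nat.mod_eq_of_lt hz]
            exact ihc r x y z u h hx hy hz hu p B (Vd_out hB hp)
      · rw [min_eq_left hr] at h
        cases c with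
        | zero =>
          rw [zero_add, cnt_one, pow_one] at hx hy hz hu
          rw [eQ_col_one p r _ B hB hx, eQ_col_one p r _ B hB hy, eQ_col_one p r _ B hB hz,
            eQ_col_one p r _ B hB hu]
          exact h
        | succ c =>
          rw [ck4_succ] at h
          obtain ⟨h1, h2⟩ := cond_tt h
          have hM : 0 < W ^ cnt (c + 1) r := pow_pos hW _
          have hM' : 0 < W' ^ cnt (c + 1) r := pow_pos hW' _
          have i1 := ihf (c + 1) r _ _ _ _ (by rwa [min_eq_left (by omega)]) (Nat.mod_lt x hM')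
            (Nat.mod_lt y hM') (Nat.mod_lt z hM') (Nat.mod_lt u hM)
          have i2 := ihf (c + 2) (r - (c + 2)) _ _ _ _ h2 (div_lt_cnt hr hx) (div_lt_cnt hr hy)
            (div_lt_cnt hr hz) (div_lt_cnt hr hu)
          cases p with
          | zero => exact absurd (Vd_zero hB).1 (by omega)
          | succ p =>
            by_cases hp : p ∈ B
            · rw [eQ_in hp hr, eQ_in hp hr, eQ_in hp hr, eQ_in hp hr, ← eQ_erase,
                ← eQ_erase (x := y / W' ^ cnt (c + 1) r), ← eQ_erase (x := z / W' ^ cnt (c + 1) r),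
                ← eQ_erase (x := u / W ^ cnt (c + 1) r)]
              exact i2 p (B.erase p) (Vd_in hB hp).2
            · rw [eQ_out hp, eQ_out hp, eQ_out hp, eQ_out hp]
              exact i1 p B (Vd_out hB hp)

/-! ### the variance condition -/

/-- `x² T / y + 1` -/
noncomputable def fP (T : ℕ) (x y _n : ℕ) : ℕ := Nat.succ (Nat.div (Nat.mul (Nat.mul x x) T) y)

/-- `x n T / y` -/
noncomputable def fQ (T : ℕ) (x y n : ℕ) : ℕ := Nat.div (Nat.mul (Nat.mul x n) T) y

/-- `n² T / y + 1` -/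
noncomputable def fR (T : ℕ) (_x y n : ℕ) : ℕ := Nat.succ (Nat.div (Nat.mul (Nat.mul n n) T) y)

/-- `(P - T A) R ≤ Q²` (`T` = scale of `P`) -/
noncomputable def fS (T : ℕ) (P Q R A : ℕ) : Bool :=
  Nat.ble (Nat.mul (Nat.sub P (Nat.mul T A)) R) (Nat.mul Q Q)

/-- one restriction of the three tables `P, Q, R` in base `W'` and the test -/
noncomputable def sc2 (W' v' W T fu N P Q R A : ℕ) : Bool :=
  cond (msk W' v' (cnt N N) P) (cond (msk W' v' (cnt N N) Q) (cond (msk W' v' (cnt N N) R)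
    (fb (dqf W' fu N N P) (fun P => fb (dqf W' fu N N Q) (fun Q => fb (dqf W' fu N N R) (fun R =>
      ck4 W' W (fS T) fu (Nat.pred N) (Nat.pred N) P Q R A)))) false) false) false

/-- the variance condition of the tables `x` (for `f`), `y` (for `g`), `n` (standard tableaux) on the
level `N` and `A` on the level `N - 1`; scales `T₁ T₃ = T₂²` -/
noncomputable def sch (W' v' W T₁ T₂ T₃ fu N A x y n : ℕ) : Bool :=
  fb (mp3 W W' (fP T₁) fu N N x y n) (fun P => fb (mp3 W W' (fQ T₂) fu N N x y n) (fun Q =>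
    fb (mp3 W W' (fR T₃) fu N N x y n) (fun R => sc2 W' v' W T₁ fu N P Q R A)))

theorem fP_lt {W W' T a b d : ℕ} (h : W * W * T + 1 < W') (ha : a < W) : fP T a b d < W' := by
  change a * a * T / b + 1 < W'
  have h1 : a * a * T / b ≤ W * W * T :=
    (Nat.div_le_self _ _).trans (Nat.mul_le_mul_right _ (Nat.mul_le_mul ha.le ha.le))
  omega

theorem fQ_lt {W W' T a b d : ℕ} (h : W * W * T + 1 < W') (ha : a < W) (hd : d < W) :
    fQ T a b d < W' := by
  change a * d * T / b < W'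
  have h1 : a * d * T / b ≤ W * W * T :=
    (Nat.div_le_self _ _).trans (Nat.mul_le_mul_right _ (Nat.mul_le_mul ha.le hd.le))
  omega

theorem fR_lt {W W' T a b d : ℕ} (h : W * W * T + 1 < W') (hd : d < W) : fR T a b d < W' := by
  change d * d * T / b + 1 < W'
  have h1 : d * d * T / b ≤ W * W * T :=
    (Nat.div_le_self _ _).trans (Nat.mul_le_mul_right _ (Nat.mul_le_mul hd.le hd.le))
  omega

/-- the real inequality behind the test -/
theorem var_le {s : Finset ℕ} {X Y n P Q R : ℕ → ℕ} {T₁ T₂ T₃ A : ℕ} (hT : 0 < T₁)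
    (hTT : T₁ * T₃ = T₂ * T₂) (hT2 : 0 < T₂) (hT3 : 0 < T₃)
    (hY : ∀ i ∈ s, 0 < Y i) (hP : ∀ i ∈ s, P i = X i * X i * T₁ / Y i + 1)
    (hQ : ∀ i ∈ s, Q i = X i * n i * T₂ / Y i) (hR : ∀ i ∈ s, R i = n i * n i * T₃ / Y i + 1)
    (h : ((∑ i ∈ s, P i) - T₁ * A) * (∑ i ∈ s, R i) ≤ (∑ i ∈ s, Q i) * (∑ i ∈ s, Q i)) :
    ∃ ψ : ℝ, ∑ i ∈ s, ((X i : ℝ) - ψ * n i) ^ 2 / Y i ≤ A := by
  have hT' : (0 : ℝ) < T₁ := by exact_mod_cast hT
  have hT2' : (0 : ℝ) < T₂ := by exact_mod_cast hT2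
  have hT3' : (0 : ℝ) < T₃ := by exact_mod_cast hT3
  have hTT' : (T₁ : ℝ) * T₃ = T₂ * T₂ := by exact_mod_cast hTT
  rcases s.eq_empty_or_nonempty with h0 | h0
  · refine ⟨0, ?_⟩
    rw [h0, sum_empty]
    exact Nat.cast_nonneg A
  set p := ∑ i ∈ s, P i with hp
  set q := ∑ i ∈ s, Q i with hq
  set r := ∑ i ∈ s, R i with hr
  have hr0 : 0 < r := by
    obtain ⟨i, hi⟩ := h0
    have h1 : R i ≤ r := single_le_sum (f := R) (fun _ _ => Nat.zero_le _) hi
    refine lt_of_lt_of_le ?_ h1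
    rw [hR i hi]
    exact Nat.succ_pos _
  have hr0' : (0 : ℝ) < r := by exact_mod_cast hr0
  have b1 : ∀ i ∈ s, (X i : ℝ) * X i * T₁ / Y i ≤ P i := by
    intro i hi
    have hy : (0 : ℝ) < Y i := by exact_mod_cast hY i hi
    rw [div_le_iff₀ hy, hP i hi]
    have := Nat.lt_div_mul_add (a := X i * X i * T₁) (hY i hi)
    have h2 : X i * X i * T₁ ≤ (X i * X i * T₁ / Y i + 1) * Y i := by
      rw [add_mul, one_mul]
      exact this.le
    exact_mod_cast h2
  have b2 : ∀ i ∈ s, (Q i : ℝ) ≤ (X i : ℝ) * n i * T₂ / Y i := by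
    intro i hi
    have hy : (0 : ℝ) < Y i := by exact_mod_cast hY i hi
    rw [le_div_iff₀ hy, hQ i hi]
    have := Nat.div_mul_le_self (X i * n i * T₂) (Y i)
    exact_mod_cast this
  have b3 : ∀ i ∈ s, (n i : ℝ) * n i * T₃ / Y i ≤ R i := by
    intro i hi
    have hy : (0 : ℝ) < Y i := by exact_mod_cast hY i hi
    rw [div_le_iff₀ hy, hR i hi]
    have := Nat.lt_div_mul_add (a := n i * n i * T₃) (hY i hi)
    have h2 : n i * n i * T₃ ≤ (n i * n i * T₃ / Y i + 1) * Y i := by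
      rw [add_mul, one_mul]
      exact this.le
    exact_mod_cast h2
  have c1 : T₁ * ∑ i ∈ s, (X i : ℝ) * X i / Y i ≤ p := by
    rw [hp, mul_sum]
    push_cast
    refine sum_le_sum fun i hi => le_of_eq_of_le ?_ (b1 i hi)
    ring
  have c2 : (q : ℝ) ≤ T₂ * ∑ i ∈ s, (X i : ℝ) * n i / Y i := by
    rw [hq, mul_sum]
    push_cast
    refine sum_le_sum fun i hi => (b2 i hi).trans (le_of_eq ?_)
    ring
  have c3 : T₃ * ∑ i ∈ s, (n i : ℝ) * n i / Y i ≤ r := by
    rw [hr, mul_sum]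
    push_cast
    refine sum_le_sum fun i hi => le_of_eq_of_le ?_ (b3 i hi)
    ring
  have h' : ((p : ℝ) - T₁ * A) * r ≤ q * q := by
    have h1 : (((p - T₁ * A : ℕ) : ℝ)) * r ≤ q * q := by exact_mod_cast h
    have h2 : (p : ℝ) - T₁ * A ≤ ((p - T₁ * A : ℕ) : ℝ) := by
      have h3 : p ≤ (p - T₁ * A) + T₁ * A := by omega
      have h4 : (p : ℝ) ≤ ((p - T₁ * A : ℕ) : ℝ) + T₁ * A := by exact_mod_cast h3
      linarith
    exact (mul_le_mul_of_nonneg_right h2 hr0'.le).trans h1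
  set a := ∑ i ∈ s, (X i : ℝ) * X i / Y i with ha
  set b := ∑ i ∈ s, (X i : ℝ) * n i / Y i with hb
  set c := ∑ i ∈ s, (n i : ℝ) * n i / Y i with hc
  have d1 : a ≤ p / T₁ := by
    rw [le_div_iff₀ hT']
    linarith
  have d2 : (q : ℝ) / T₂ ≤ b := by
    rw [div_le_iff₀ hT2']
    linarith
  have d3 : c ≤ r / T₃ := by
    rw [le_div_iff₀ hT3']
    linarith
  set ψ : ℝ := (q / T₂) / (r / T₃) with hψ
  refine ⟨ψ, ?_⟩
  have hψ0 : 0 ≤ ψ := by positivity
  have hψr : ψ * (r / T₃) = q / T₂ := by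
    rw [hψ]
    field_simp
  have e : ∑ i ∈ s, ((X i : ℝ) - ψ * n i) ^ 2 / Y i = a - 2 * ψ * b + ψ ^ 2 * c := by
    rw [ha, hb, hc, mul_sum, mul_sum, ← sum_sub_distrib, ← sum_add_distrib]
    refine sum_congr rfl fun i _ => ?_
    ring
  rw [e]
  have h1 : a - 2 * ψ * b + ψ ^ 2 * c ≤ p / T₁ - ψ * (q / T₂) := by
    have f2 := mul_le_mul_of_nonneg_left d2 (by positivity : 0 ≤ 2 * ψ)
    have f3 := mul_le_mul_of_nonneg_left d3 (sq_nonneg ψ)
    have f4 : ψ ^ 2 * (r / T₃) = ψ * (q / T₂) := by rw [pow_two, mul_assoc, hψr]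
    linarith
  refine h1.trans ?_
  have h2 : (p : ℝ) / T₁ - ψ * (q / T₂) = (p * r - q * q) / (T₁ * r) := by
    rw [hψ]
    field_simp
    linear_combination (-(q : ℝ) ^ 2) * hTT'
  rw [h2, div_le_iff₀ (mul_pos hT' hr0')]
  linarith

theorem ble_true {a b : ℕ} (h : Nat.ble a b = true) : a ≤ b := Nat.le_of_ble_eq_true h

/-- the variance condition, in digits -/
theorem sch_sound {W W' v' T₁ T₂ T₃ f K c k A x y n : ℕ} (hW' : W' = 2 ^ (v' + 7)) (hW0 : 0 < W)
    (hT : 0 < T₁) (hTT : T₁ * T₃ = T₂ * T₂) (hT1 : T₁ ≤ T₃) (hT2 : T₂ ≤ T₃)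
    (hWW : W * W * T₃ + 1 < W') (hp : K + c < 128) (hk : k + 1 ≤ c) (hK : k + 1 ≤ K)
    (hf : k + 1 + (k + 1) < f) (hA : A < W ^ cnt c k) (hx : x < W ^ cnt c (k + 1))
    (hy : y < W ^ cnt c (k + 1)) (hn : n < W ^ cnt c (k + 1))
    (hy0 : ∀ B ∈ Lv K (k + 1), 0 < eQ W (K + c) c (k + 1) y B)
    (h : sch W' v' W T₁ T₂ T₃ f (k + 1) A x y n = true) {C : Finset ℕ} (hC : C ∈ Lv K k) :
    ∃ ψ : ℝ, ∑ i ∈ ad C, ((eQ W (K + c) c (k + 1) x (mv C i) : ℝ) -
      ψ * eQ W (K + c) c (k + 1) n (mv C i)) ^ 2 / eQ W (K + c) c (k + 1) y (mv C i) ≤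
        eQ W (K + c) c k A C := by
  have hW'0 : 0 < W' := by omega
  have hmin : min c (k + 1) = k + 1 := min_eq_right hk
  have hT3 : 0 < T₃ := lt_of_lt_of_le hT hT1
  have hT20 : 0 < T₂ := by
    rcases Nat.eq_zero_or_pos T₂ with h0 | h0
    · rw [h0, mul_zero] at hTT
      have := Nat.mul_pos hT hT3
      omega
    · exact h0
  have hWW1 : W * W * T₁ + 1 < W' :=
    lt_of_le_of_lt (Nat.add_le_add_right (Nat.mul_le_mul_left _ hT1) 1) hWW
  have hWW2 : W * W * T₂ + 1 < W' :=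
    lt_of_le_of_lt (Nat.add_le_add_right (Nat.mul_le_mul_left _ hT2) 1) hWW
  have P := mp3_sound hW0 hW'0 (φ := fP T₁) (fun a b d ha _ _ => fP_lt hWW1 ha) f c (k + 1) x y n
    (by rw [hmin]; exact hf) (by omega) hx hy hn
  have Q := mp3_sound hW0 hW'0 (φ := fQ T₂) (fun a b d ha _ hd => fQ_lt hWW2 ha hd) f c (k + 1)
    x y n (by rw [hmin]; exact hf) (by omega) hx hy hn
  have R := mp3_sound hW0 hW'0 (φ := fR T₃) (fun a b d _ _ hd => fR_lt hWW hd) f c (k + 1) x y n
    (by rw [hmin]; exact hf) (by omega) hx hy hn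
  rw [hmin] at P Q R
  have h' : sc2 W' v' W T₁ f (k + 1) (mp3 W W' (fP T₁) f (k + 1) (k + 1) x y n)
    (mp3 W W' (fQ T₂) f (k + 1) (k + 1) x y n) (mp3 W W' (fR T₃) f (k + 1) (k + 1) x y n) A =
      true := h
  obtain ⟨m1, h'⟩ := cond_tt h'
  obtain ⟨m2, h'⟩ := cond_tt h'
  obtain ⟨m3, h'⟩ := cond_tt h'
  obtain ⟨P1, P2⟩ := P
  obtain ⟨Q1, Q2⟩ := Q
  obtain ⟨R1, R2⟩ := R
  obtain ⟨p1, p2⟩ := stepU hW' hp hk hK hf.le P1 m1
  obtain ⟨q1, q2⟩ := stepU hW' hp hk hK hf.le Q1 m2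
  obtain ⟨r1, r2⟩ := stepU hW' hp hk hK hf.le R1 m3
  have h'' : ck4 W' W (fS T₁) f (min c k) k
    (dqf W' f (k + 1) (k + 1) (mp3 W W' (fP T₁) f (k + 1) (k + 1) x y n))
    (dqf W' f (k + 1) (k + 1) (mp3 W W' (fQ T₂) f (k + 1) (k + 1) x y n))
    (dqf W' f (k + 1) (k + 1) (mp3 W W' (fR T₃) f (k + 1) (k + 1) x y n)) A = true := by
    rw [min_eq_right (by omega : k ≤ c)]
    exact h'
  have hv := Vd_lv hC (by omega : k ≤ c)
  have key := ck4_sound hW'0 hW0 f c k _ _ _ _ h'' p1 q1 r1 hA (K + c) C hv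
  rw [p2 C hv, q2 C hv, r2 C hv] at key
  have hb : ∀ i ∈ C, i + 1 < K + c := fun i hi => by
    have := (Lv_spec hC).2.2.1 i hi
    omega
  rw [Dg_ad hb, Dg_ad hb, Dg_ad hb] at key
  have key' := ble_true key
  have hmv : ∀ i ∈ ad C, Vd (K + c) c (k + 1) (mv C i) := fun i hi =>
    Vd_lv (mv_mem hC hi) hk
  exact var_le (s := ad C) (X := fun i => eQ W (K + c) c (k + 1) x (mv C i))
    (Y := fun i => eQ W (K + c) c (k + 1) y (mv C i))
    (n := fun i => eQ W (K + c) c (k + 1) n (mv C i)) hT hTT hT20 hT3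
    (fun i hi => hy0 _ (mv_mem hC hi)) (fun i hi => P2 _ _ (hmv i hi))
    (fun i hi => Q2 _ _ (hmv i hi)) (fun i hi => R2 _ _ (hmv i hi)) key'

end Pool.JM.Pack
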