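import Pool.Agent.Work.MP_46fa68_48c.Split

/-!
# MP_46fa68_co: the checks on packed tables in still smaller pieces
-/

set_option autoImplicit false

open Finset Equiv

namespace Pool.JM.Pack

/-- one restriction of a table in base `W'`, all digits below `2 ^ v'` -/
noncomputable def cR1 (W' v' fu N Z P : ℕ) : Bool :=
  cond (msk W' v' (cnt N N) Z) (Nat.beq (dqf W' fu N N Z) P) false

/-- the pointwise map with a known result -/
noncomputable def cZ (W' W fu N : ℕ) (φ : ℕ → ℕ → ℕ → ℕ) (x y n Z : ℕ) : Bool :=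
  Nat.beq (mp3 W W' φ fu N N x y n) Z

theorem cM_of {W' v' W fu N x y n Z P : ℕ} {φ : ℕ → ℕ → ℕ → ℕ}
    (h1 : cZ W' W fu N φ x y n Z = true) (h2 : cR1 W' v' fu N Z P = true) :
    cM W' v' W fu N φ x y n P = true := by
  have e : mp3 W W' φ fu N N x y n = Z := beq_true h1
  unfold cM
  rw [e]
  have : ∀ (a : ℕ) (κ : ℕ → Bool), fb a κ = κ a := fun a κ => by cases a <;> rfl
  rw [this]
  exact h2

end Pool.JM.Pack
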