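import Pool.Agent.Work.MP_46fa68_48c.Split
import Pool.Agent.Work.MP_46fa68_48c.Tab

/-!
# MP_46fa68_co: a joint certificate from packed tables, in pieces

The same as `Tab.lean`, but the variance condition is checked with truncated entries, and the numbers of standard
tableaux and the three variance tables are given as data.
-/

set_option autoImplicit false

open Finset Equiv

namespace Pool.JM.Pack

theorem Cert_of_pieces {W v W' v' B₀ T₁ T₂ T₃ f m j K c hi hy D1 D2 D3 S1 S1' S2 S2' S3 S3' A x y F P Q R : ℕ}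
    (hW : W = 2 ^ (v + 7)) (hW' : W' = 2 ^ (v' + 7)) (hB : B₀ = 2 ^ v') (hT : 0 < T₁)
    (hTT : T₁ * T₃ = T₂ * T₂) (hT2 : 0 < T₂) (hT3 : 0 < T₃)
    (hp : K + c < 128) (hm : 1 ≤ m) (hc : m + j + 1 ≤ c) (hK : m + j + 1 < K)
    (hf : m + j + 1 + (m + j + 1) < f) (hhy : hy < W)
    (b1 : S1 < 2 ^ v) (b2 : S2 < 2 ^ v) (b3 : S3 < 2 ^ v)
    (e1 : D1 * hi + S1' < W) (e2 : D2 * hi + S2' < W) (e3 : D3 * hi + S3' < W)
    (hA : cL W v f m j hi D1 S1 S1' A = true)
    (hX : cL W v f m (j + 1) hi D2 S2 S2' x = true)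
    (hG : cL W v f m (j + 1) hi D3 S3 S3' y = true)
    (hY : cY W f (m + j + 1) hy y = true)
    (hN : upr W v f (m + j + 1) 0 1 (fun y => Nat.beq y F) = true)
    (hP : cM W' v' W f (m + j + 1) (gP B₀ T₁) x y 0 P = true)
    (hQ : cM W' v' W f (m + j + 1) (gQ B₀ T₂) x y F Q = true)
    (hR : cM W' v' W f (m + j + 1) (gR B₀ T₃) 0 y F R = true)
    (hS : ck4 W' W (fS T₁) f (m + j) (m + j) P Q R A = true) :
    ∃ al ph fF g : Finset ℕ → ℝ,
      Cert (m + j) m K D1 ((S1 : ℝ) - S1') ((S2 : ℝ) - S2') D3 ((S3 : ℝ) - S3') al ph fF g ∧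
      ∀ B ∈ Lv K m, fF B = D2 - if B = Rw K m then (S2 : ℝ) - S2' else 0 := by
  have hW2 : 2 ≤ W := by
    have : 0 < 2 ^ v := pow_pos (by omega) v
    rw [hW, pow_add]
    omega
  obtain ⟨hA1, hA2, hA3⟩ := cL_sound hW hp hm (by omega) (by omega) (by omega) b1 e1 hA
  obtain ⟨hX1, hX2, hX3⟩ := cL_sound (j := j + 1) hW hp hm hc (by omega) (by omega) b2 e2 hX
  obtain ⟨hG1, hG2, hG3⟩ := cL_sound (j := j + 1) hW hp hm hc (by omega) (by omega) b3 e3 hG
  have hs0 : Syt W K c 0 1 := Syt_zero hW2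
  obtain ⟨F', hF, hS'⟩ := upr_sound hW hp _ (m + j + 1) 0 1 (by omega) (by omega) (by omega)
    hs0 hN
  rw [zero_add, beq_true hS'] at hF
  have hy0 : ∀ B ∈ Lv K (m + j + 1), 0 < eQ W (K + c) c (m + j + 1) y B := by
    intro B hB
    have h1 := okq_sound (W := W) (lo := 1) hhy f c (m + j + 1) y
      (by rw [min_eq_right hc]; exact hY) hG1 (K + c) B
    exact h1.2 (Vd_lv hB hc)
  have hvar := fun (C : Finset ℕ) (hC : C ∈ Lv K (m + j)) =>
    sch_pieces (k := m + j) hW' hB (by omega) hT hTT hT2 hT3 hp hc (by omega) hf hA1 hX1 hG1 hF.1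
      hy0 hP hQ hR hS hC
  have he : 0 < ex (range K) := ex_pos _
  have hm0 : (0 : ℝ) < m.factorial := by exact_mod_cast m.factorial_pos
  set κ : ℝ := ex (range K) / m.factorial with hκ
  have hκ0 : 0 < κ := div_pos he hm0
  have hcan : ∀ z : ℝ, κ * (m.factorial / ex (range K) * z) = z := fun z => by
    rw [hκ]
    field_simp
  classical
  refine ⟨fun B => κ * hfn W f K c (m + j) A B,
    fun C => if hC : C ∈ Lv K (m + j) then
      (hvar C hC).choose * (m + j + 1).factorial / m.factorial else 0,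
    fun B => κ * hfn W f K c (m + j + 1) x B, fun B => κ * hfn W f K c (m + j + 1) y B,
    ⟨hA2.smul73 κ, ?_, hX2.smul73 κ, ⟨D2, ?_⟩, hG2.smul73 κ, ?_, ?_, ?_⟩, ?_⟩
  · refine Val_of_const (by omega) (by omega) _ _ _ fun C hC => ?_
    rw [hA3 C hC, hcan]
  · refine Val_of_const (by omega) (by omega) _ _ _ fun C hC => ?_
    change κ * hfn W f K c (m + (j + 1)) x C = _
    rw [hX3 C hC, hcan]
  · refine Val_of_const (by omega) (by omega) _ _ _ fun C hC => ?_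
    change κ * hfn W f K c (m + (j + 1)) y C = _
    rw [hG3 C hC, hcan]
  · intro B hB
    change 0 < κ * hfn W f K c (m + j + 1) y B
    rw [hfn_top hB]
    have h1 : (0 : ℝ) < eQ W (K + c) c (m + j + 1) y B := by exact_mod_cast hy0 B hB
    exact mul_pos hκ0 (div_pos h1 (ex_pos B))
  · intro C hC
    simp only [dif_pos hC]
    have h1 := (hvar C hC).choose_spec
    set ψ : ℝ := (hvar C hC).choose with hψ
    rw [hfn_top hC]
    have hCe := ex_pos C
    have e : ∑ i ∈ ad C, w C i * ((κ * hfn W f K c (m + j + 1) x (mv C i) -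
        ψ * (m + j + 1).factorial / m.factorial) ^ 2 /
          (κ * hfn W f K c (m + j + 1) y (mv C i))) =
        κ / ex C * ∑ i ∈ ad C, ((eQ W (K + c) c (m + j + 1) x (mv C i) : ℝ) -
          ψ * eQ W (K + c) c (m + j + 1) F (mv C i)) ^ 2 /
            eQ W (K + c) c (m + j + 1) y (mv C i) := by
      rw [mul_sum]
      refine sum_congr rfl fun i hi => ?_
      have hB := mv_mem hC hi
      rw [hfn_top hB, hfn_top hB]
      have hy1 : (0 : ℝ) < eQ W (K + c) c (m + j + 1) y (mv C i) := by exact_mod_cast hy0 _ hB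
      have hBe := ex_pos (mv C i)
      have hFB := hF.2 _ hB
      have hexmv := ex_mv hi
      have hw := Cert.w_pos' hi
      set X : ℝ := (eQ W (K + c) c (m + j + 1) x (mv C i) : ℝ)
      set Y : ℝ := (eQ W (K + c) c (m + j + 1) y (mv C i) : ℝ)
      set n' : ℝ := (eQ W (K + c) c (m + j + 1) F (mv C i) : ℝ)
      have h5 : ψ * (m + j + 1).factorial / m.factorial = κ * (ψ * n') / ex (mv C i) := by
        rw [hκ, div_eq_div_iff hm0.ne' hBe.ne']
        have : ex (range K) / (m.factorial : ℝ) * (ψ * n') * m.factorial =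
            ψ * (n' * ex (range K)) := by
          field_simp
        rw [this, hFB]
        ring
      rw [h5, hexmv]
      have hw' := hw.ne'
      have hy' := hy1.ne'
      have hc' := hCe.ne'
      have hk' := hκ0.ne'
      field_simp
    refine le_of_eq_of_le e ?_
    rw [mul_div_assoc', div_mul_eq_mul_div]
    exact div_le_div_of_nonneg_right (mul_le_mul_of_nonneg_left h1 hκ0.le) hCe.le
  · intro C hC
    change κ * hfn W f K c (m + (j + 1)) x C = _
    rw [hX3 C hC, hcan]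

section

variable {W v W' v' B₀ T₁ T₂ T₃ f m j hi hy U dA a1 a2 x1 x2 DX dG g1 g2 A x y F P Q R : ℕ}

theorem Cert_of_chkB
    (hp : cPB W v W' v' B₀ T₁ T₂ T₃ f m j hi hy U dA a1 a2 x1 x2 DX dG g1 g2 = true)
    (hA : cL W v f m j hi (Nat.mul U dA) (Nat.mul U a1) (Nat.mul U a2) A = true)
    (hX : cL W v f m (Nat.succ j) hi DX (Nat.mul U x1) (Nat.mul U x2) x = true)
    (hG : cL W v f m (Nat.succ j) hi (Nat.mul U dG) (Nat.mul U g1) (Nat.mul U g2) y = true)
    (hY : cY W f (Nat.succ (Nat.add m j)) hy y = true)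
    (hN : upr W v f (Nat.succ (Nat.add m j)) 0 1 (fun y => Nat.beq y F) = true)
    (hP : cM W' v' W f (Nat.succ (Nat.add m j)) (gP B₀ T₁) x y 0 P = true)
    (hQ : cM W' v' W f (Nat.succ (Nat.add m j)) (gQ B₀ T₂) x y F Q = true)
    (hR : cM W' v' W f (Nat.succ (Nat.add m j)) (gR B₀ T₃) 0 y F R = true)
    (hS : ck4 W' W (fS T₁) f (Nat.add m j) (Nat.add m j) P Q R A = true) :
    (0 : ℝ) < U ∧ ∃ al ph fF g : Finset ℕ → ℝ,
      Cert (m + j) m (m + j + 2) (U * dA) (U * ((a1 : ℝ) - a2)) (U * ((x1 : ℝ) - x2)) (U * dG)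
        (U * ((g1 : ℝ) - g2)) al ph fF g ∧
      ∀ B ∈ Lv (m + j + 2) m, fF B = DX - if B = Rw (m + j + 2) m then U * ((x1 : ℝ) - x2)
        else 0 := by
  obtain ⟨h1, hp⟩ := cond_tt hp
  obtain ⟨h2, hp⟩ := cond_tt hp
  obtain ⟨hb, hp⟩ := cond_tt hp
  obtain ⟨h4, hp⟩ := cond_tt hp
  obtain ⟨t1, hp⟩ := cond_tt hp
  obtain ⟨t2, hp⟩ := cond_tt hp
  obtain ⟨t3, hp⟩ := cond_tt hp
  obtain ⟨h5, hp⟩ := cond_tt hp
  obtain ⟨h6, hp⟩ := cond_tt hp
  obtain ⟨h7, hp⟩ := cond_tt hp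
  obtain ⟨h8, hp⟩ := cond_tt hp
  obtain ⟨h9, hp⟩ := cond_tt hp
  obtain ⟨h10, hp⟩ := cond_tt hp
  obtain ⟨h11, hp⟩ := cond_tt hp
  obtain ⟨h12, hp⟩ := cond_tt hp
  obtain ⟨h13, hp⟩ := cond_tt hp
  obtain ⟨h14, hp⟩ := cond_tt hp
  obtain ⟨h15, -⟩ := cond_tt hp
  have k1 : W = 2 ^ (v + 7) := Nat.eq_of_beq_eq_true h1
  have k2 : W' = 2 ^ (v' + 7) := Nat.eq_of_beq_eq_true h2
  have k3 : B₀ = 2 ^ v' := Nat.eq_of_beq_eq_true hb
  have k4 : 0 < T₁ := lt'_iff h4
  have u1 : T₁ * T₃ = T₂ * T₂ := Nat.eq_of_beq_eq_true t1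
  have u2 : 0 < T₂ := lt'_iff t2
  have u3 : 0 < T₃ := lt'_iff t3
  have k5 : 2 * (m + j) + 3 < 128 := lt'_iff h5
  have k6 : 2 * (m + j) + 2 < f := lt'_iff h6
  have k7 : 0 < m := lt'_iff h7
  have k8 : 0 < U := lt'_iff h8
  have k9 : hy < W := lt'_iff h9
  have k10 : U * a1 < 2 ^ v := lt'_iff h10
  have k11 : U * x1 < 2 ^ v := lt'_iff h11
  have k12 : U * g1 < 2 ^ v := lt'_iff h12
  have k13 : U * dA * hi + U * a2 < W := lt'_iff h13
  have k14 : DX * hi + U * x2 < W := lt'_iff h14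
  have k15 : U * dG * hi + U * g2 < W := lt'_iff h15
  obtain ⟨al, ph, fF, g, hC, hF⟩ := Cert_of_pieces (K := m + j + 2) (c := m + j + 1) k1 k2 k3 k4 u1
    u2 u3 (by omega) k7 le_rfl (by omega) (by omega) k9 k10 k11 k12 k13 k14 k15 hA hX hG hY hN hP
    hQ hR hS
  refine ⟨by exact_mod_cast k8, al, ph, fF, g, ?_, fun B hB => ?_⟩
  · push_cast at hC
    rwa [← mul_sub, ← mul_sub, ← mul_sub] at hC
  · rw [hF B hB]
    push_cast
    split_ifs <;> ring

/-- **the certificate from the checks** -/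
theorem JCs_of_pieces
    (hp : cPB W v W' v' B₀ T₁ T₂ T₃ f m j hi hy U dA a1 a2 x1 x2 DX dG g1 g2 = true)
    (hA : cL W v f m j hi (Nat.mul U dA) (Nat.mul U a1) (Nat.mul U a2) A = true)
    (hX : cL W v f m (Nat.succ j) hi DX (Nat.mul U x1) (Nat.mul U x2) x = true)
    (hG : cL W v f m (Nat.succ j) hi (Nat.mul U dG) (Nat.mul U g1) (Nat.mul U g2) y = true)
    (hY : cY W f (Nat.succ (Nat.add m j)) hy y = true)
    (hN : upr W v f (Nat.succ (Nat.add m j)) 0 1 (fun y => Nat.beq y F) = true)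
    (hP : cM W' v' W f (Nat.succ (Nat.add m j)) (gP B₀ T₁) x y 0 P = true)
    (hQ : cM W' v' W f (Nat.succ (Nat.add m j)) (gQ B₀ T₂) x y F Q = true)
    (hR : cM W' v' W f (Nat.succ (Nat.add m j)) (gR B₀ T₃) 0 y F R = true)
    (hS : ck4 W' W (fS T₁) f (Nat.add m j) (Nat.add m j) P Q R A = true) :
    JCs (m + j) m dA ((a1 : ℝ) - a2) ((x1 : ℝ) - x2) dG ((g1 : ℝ) - g2) := by
  obtain ⟨hU, al, ph, fF, g, hC, -⟩ := Cert_of_chkB hp hA hX hG hY hN hP hQ hR hS
  exact JCs_rescale hU (JCs_of_cert (by omega) (by omega) hC)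

/-- **the certificate from the checks**, the other sign of `f` -/
theorem JCs_of_pieces_neg
    (hp : cPB W v W' v' B₀ T₁ T₂ T₃ f m j hi hy U dA a1 a2 x1 x2 DX dG g1 g2 = true)
    (hA : cL W v f m j hi (Nat.mul U dA) (Nat.mul U a1) (Nat.mul U a2) A = true)
    (hX : cL W v f m (Nat.succ j) hi DX (Nat.mul U x1) (Nat.mul U x2) x = true)
    (hG : cL W v f m (Nat.succ j) hi (Nat.mul U dG) (Nat.mul U g1) (Nat.mul U g2) y = true)
    (hY : cY W f (Nat.succ (Nat.add m j)) hy y = true)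
    (hN : upr W v f (Nat.succ (Nat.add m j)) 0 1 (fun y => Nat.beq y F) = true)
    (hP : cM W' v' W f (Nat.succ (Nat.add m j)) (gP B₀ T₁) x y 0 P = true)
    (hQ : cM W' v' W f (Nat.succ (Nat.add m j)) (gQ B₀ T₂) x y F Q = true)
    (hR : cM W' v' W f (Nat.succ (Nat.add m j)) (gR B₀ T₃) 0 y F R = true)
    (hS : ck4 W' W (fS T₁) f (Nat.add m j) (Nat.add m j) P Q R A = true) :
    JCs (m + j) m dA ((a1 : ℝ) - a2) ((x2 : ℝ) - x1) dG ((g1 : ℝ) - g2) := by
  obtain ⟨hU, al, ph, fF, g, hC, hF⟩ := Cert_of_chkB hp hA hX hG hY hN hP hQ hR hS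
  have h := JCs_of_cert (by omega) (by omega) (Cert.neg (by omega) (by omega) hC hF)
  rw [← mul_neg, neg_sub] at h
  exact JCs_rescale hU h

end

end Pool.JM.Pack
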