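import Pool.Agent.Work.MP_46fa68_48c.Chk2
import Pool.Agent.Work.MP_46fa68_h3.Two
import Pool.Agent.Work.MP_46fa68_73.Scaled

/-!
# MP_46fa68_co: the two-class certificate (helper3's `two_class`) from packed tables

Tables `a`, `c` (harmonic down to the level `k + 1`) and `b` (down to the level `k`) on the partitions of
`N = k + t`, `b² ≤ a c` pointwise.  All scalings `(s a, b, c / s)` are certificates.
-/

set_option autoImplicit false

open Finset Equiv

namespace Pool.TW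

open Pool.JM Pool.JM.Pack Pool.OS

/-- the inequalities of all scalings of a two-class certificate -/
def TCs (n k t : ℕ) (p0 s11 q0 s12 r0 s22 : ℝ) : Prop :=
  ∀ s : ℝ, 0 < s → TC n k t (s * p0) (s * s11) (s12 * (k + 1) / k) ((r0 / s + 2 * q0) / k)
    (s22 / s / k ^ 2)

theorem TCs_of {n M k t : ℕ} (hN : n + 1 = k + t) (hk : k + 1 ≤ n) (hk1 : 1 ≤ k) (hM : n + 1 < M)
    (a b c : Finset ℕ → ℝ) (p0 s11 q0 s12 r0 s22 : ℝ)
    (ha1 : Harm M (k + 1) (n + 1) a) (ha2 : Val (n + 1) M (k + 1) a p0 s11)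
    (hb1 : Harm M k (n + 1) b) (hb2 : Val (n + 1) M k b q0 s12) (hq0 : 0 ≤ q0)
    (hc1 : Harm M (k + 1) (n + 1) c) (hc2 : Val (n + 1) M (k + 1) c r0 s22) (hr0 : 0 ≤ r0)
    (ha : ∀ B ∈ Lv M (n + 1), 0 ≤ a B) (hc : ∀ B ∈ Lv M (n + 1), 0 ≤ c B)
    (hab : ∀ B ∈ Lv M (n + 1), b B ^ 2 ≤ a B * c B) : TCs n k t p0 s11 q0 s12 r0 s22 := by
  intro s hs
  have hs' : 0 ≤ s⁻¹ := inv_nonneg.2 hs.le
  have h := two_class hN hk hk1 hM (fun B => s * a B) b (fun B => s⁻¹ * c B) (s * p0) (s * s11)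
    q0 s12 (s⁻¹ * r0) (s⁻¹ * s22) (ha1.smul73 s) (ha2.smul73 hs.le) hb1 hb2 hq0 (hc1.smul73 _)
    (hc2.smul73 hs') (mul_nonneg hs' hr0) (fun B hB => mul_nonneg hs.le (ha B hB))
    (fun B hB => mul_nonneg hs' (hc B hB)) (fun B hB => by
      have e : s * a B * (s⁻¹ * c B) = a B * c B := by
        field_simp
      rw [e]
      exact hab B hB)
  rwa [← div_eq_inv_mul, ← div_eq_inv_mul] at h

theorem TC_rescale {n k t : ℕ} {U W1 s11 s12 W2 s22 : ℝ} (hU : 0 < U)
    (h : TC n k t (U * W1) (U * s11) (U * s12) (U * W2) (U * s22)) : TC n k t W1 s11 s12 W2 s22 := by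
  intro A hA
  have h1 := h A hA
  have e : (U * W1 * ((Qs A).card : ℝ) + U * W2 * (off k A : ℝ)) -
      (U * s11 * ((Qs A).card : ℝ) ^ 2 + 2 * (U * s12) * ((Qs A).card : ℝ) * (off k A : ℝ) +
        U * s22 * (off k A : ℝ) ^ 2) / (k + 1).factorial =
      U * ((W1 * ((Qs A).card : ℝ) + W2 * (off k A : ℝ)) -
      (s11 * ((Qs A).card : ℝ) ^ 2 + 2 * s12 * ((Qs A).card : ℝ) * (off k A : ℝ) +
        s22 * (off k A : ℝ) ^ 2) / (k + 1).factorial) := by ring
  rw [e] at h1
  exact nonneg_of_mul_nonneg_right h1 hU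

theorem TCs_rescale {n k t : ℕ} {U p0 s11 q0 s12 r0 s22 : ℝ} (hU : 0 < U)
    (h : TCs n k t (U * p0) (U * s11) (U * q0) (U * s12) (U * r0) (U * s22)) :
    TCs n k t p0 s11 q0 s12 r0 s22 := by
  intro s hs
  refine TC_rescale hU ?_
  have h1 := h s hs
  have e1 : s * (U * p0) = U * (s * p0) := by ring
  have e2 : s * (U * s11) = U * (s * s11) := by ring
  have e3 : U * s12 * (k + 1) / k = U * (s12 * (k + 1) / k) := by ring
  have e4 : (U * r0 / s + 2 * (U * q0)) / k = U * ((r0 / s + 2 * q0) / k) := by ring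
  have e5 : U * s22 / s / (k : ℝ) ^ 2 = U * (s22 / s / k ^ 2) := by ring
  rwa [e1, e2, e3, e4, e5] at h1

theorem Harm_const_add {M m n : ℕ} (hn : n ≤ M) {a : Finset ℕ → ℝ} (h : Harm M m n a) (c : ℝ) :
    Harm M m n (fun B => c + a B) := by
  intro k hk hkn C hC
  show c + a C = ∑ x ∈ ad C, w C x * (c + a (mv C x))
  have h3 : ∑ x ∈ ad C, w C x = 1 := by
    rw [← w_sum C (Lv_zero_mem hC (by omega))]
    refine Finset.sum_subset (filter_subset _ _) fun x hx hx' => ?_
    refine w_zero ?_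
    by_contra hcon
    exact hx' (mem_ad.2 ⟨hx, hcon⟩)
  simp only [mul_add, Finset.sum_add_distrib]
  rw [← Finset.sum_mul, h3, one_mul, h k hk hkn C hC]

section

variable {W v f k t hi U dA a1 a2 DB b1 b2 dC c1 c2 O o R xa xb xc : ℕ}

/-- the functions of the tables -/
theorem tab_core (hP : cP2 W v f k (Nat.succ t) hi U dA a1 a2 DB b1 b2 dC c1 c2 = true)
    (hA : cL W v f (Nat.succ k) t hi (Nat.mul U dA) (Nat.mul U a1) (Nat.mul U a2) xa = true)
    (hB : cL W v f k (Nat.succ t) hi (Nat.mul U DB) (Nat.mul U b1) (Nat.mul U b2) xb = true)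
    (hC : cL W v f (Nat.succ k) t hi (Nat.mul U dC) (Nat.mul U c1) (Nat.mul U c2) xc = true)
    (hAB : cB W v f (Nat.succ (Nat.add k t)) O xa xb xc = true)
    (hR : Nat.mul k.factorial R = (Nat.succ (Nat.add k t)).factorial)
    (hO : Nat.beq (Nat.mul U o) (Nat.mul O R) = true) :
    0 < (U : ℝ) ∧ 0 < k ∧ ∃ a b c : Finset ℕ → ℝ,
      Harm (k + t + 2) (k + 1) (k + t + 1) a ∧
      (∀ B ∈ Lv (k + t + 2) (k + 1), a B = U * dA -
        if B = Rw (k + t + 2) (k + 1) then U * ((a1 : ℝ) - a2) else 0) ∧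
      Harm (k + t + 2) k (k + t + 1) b ∧
      (∀ B ∈ Lv (k + t + 2) k, b B = U * (((DB : ℝ) - o) / (k + 1)) -
        if B = Rw (k + t + 2) k then U * (((b1 : ℝ) - b2) / (k + 1)) else 0) ∧
      Harm (k + t + 2) (k + 1) (k + t + 1) c ∧
      (∀ B ∈ Lv (k + t + 2) (k + 1), c B = U * dC -
        if B = Rw (k + t + 2) (k + 1) then U * ((c1 : ℝ) - c2) else 0) ∧
      (∀ B ∈ Lv (k + t + 2) (k + t + 1), 0 ≤ a B) ∧
      (∀ B ∈ Lv (k + t + 2) (k + t + 1), 0 ≤ c B) ∧
      (∀ B ∈ Lv (k + t + 2) (k + t + 1), b B ^ 2 ≤ a B * c B) := by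
  obtain ⟨h1, hP⟩ := cond_tt hP
  obtain ⟨h2, hP⟩ := cond_tt hP
  obtain ⟨h3, hP⟩ := cond_tt hP
  obtain ⟨h4, hP⟩ := cond_tt hP
  obtain ⟨h5, hP⟩ := cond_tt hP
  obtain ⟨h6, hP⟩ := cond_tt hP
  obtain ⟨h7, hP⟩ := cond_tt hP
  obtain ⟨h8, hP⟩ := cond_tt hP
  obtain ⟨h9, hP⟩ := cond_tt hP
  obtain ⟨h10, hP⟩ := cond_tt hP
  obtain ⟨h11, -⟩ := cond_tt hP
  have k1 : W = 2 ^ (v + 7) := Nat.eq_of_beq_eq_true h1
  have k2 : 2 * (k + (t + 1)) + 1 < 128 := lt'_iff h2
  have k3 : 2 * (k + (t + 1)) < f := lt'_iff h3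
  have k4 : 0 < k := lt'_iff h4
  have k5 : 0 < U := lt'_iff h5
  have k6 : U * a1 < 2 ^ v := lt'_iff h6
  have k7 : U * b1 < 2 ^ v := lt'_iff h7
  have k8 : U * c1 < 2 ^ v := lt'_iff h8
  have k9 : U * dA * hi + U * a2 < W := lt'_iff h9
  have k10 : U * DB * hi + U * b2 < W := lt'_iff h10
  have k11 : U * dC * hi + U * c2 < W := lt'_iff h11
  have hOR : U * o = O * R := Nat.eq_of_beq_eq_true hO
  have hR' : k.factorial * R = (k + t + 1).factorial := hR
  set K := k + t + 2 with hK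
  set cc := k + t + 1 with hcc
  have hp : K + cc < 128 := by omega
  have eN : k + 1 + t = k + t + 1 := by omega
  obtain ⟨A1, A2, A3⟩ := cL_sound (K := K) (c := cc) (m := k + 1) (j := t) k1 hp (by omega)
    (by omega) (by omega) (by omega) k6 k9 hA
  obtain ⟨B1, B2, B3⟩ := cL_sound (K := K) (c := cc) (m := k) (j := t + 1) k1 hp (by omega)
    (by omega) (by omega) (by omega) k7 k10 hB
  obtain ⟨C1, C2, C3⟩ := cL_sound (K := K) (c := cc) (m := k + 1) (j := t) k1 hp (by omega)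
    (by omega) (by omega) (by omega) k8 k11 hC
  rw [eN] at A1 A2 A3 C1 C2 C3
  change xb < W ^ cnt cc (k + t + 1) at B1
  change Harm K k (k + t + 1) (hfn W f K cc (k + t + 1) xb) at B2
  change ∀ B ∈ Lv K k, hfn W f K cc (k + t + 1) xb B = _ at B3
  have hx := cB_sound (K := K) (c := cc) (N := k + t + 1) k1 hp (by omega) (by omega)
    (by omega) A1 B1 C1 hAB
  have he : 0 < ex (range K) := ex_pos _
  have hk0 : (0 : ℝ) < k.factorial := by exact_mod_cast k.factorial_pos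
  have hm0 : (0 : ℝ) < (k + 1).factorial := by exact_mod_cast (k + 1).factorial_pos
  have hfac : (((k + 1).factorial : ℕ) : ℝ) = ((k : ℝ) + 1) * k.factorial := by
    rw [Nat.factorial_succ]
    push_cast
    ring
  have hk1 : (0 : ℝ) < (k : ℝ) + 1 := by positivity
  set κ : ℝ := ex (range K) / (k + 1).factorial with hκ
  have hκ0 : 0 < κ := div_pos he hm0
  have hcan : ∀ z : ℝ, κ * ((k + 1).factorial / ex (range K) * z) = z := fun z => by
    rw [hκ]
    field_simp
  have hcan' : ∀ z : ℝ, κ * (k.factorial / ex (range K) * z) = z / (k + 1) := fun z => by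
    rw [hκ, hfac]
    field_simp
  -- the constant
  have hRR : (k.factorial : ℝ) * R = (k + t + 1).factorial := by exact_mod_cast hR'
  have hORR : (U : ℝ) * o = O * R := by exact_mod_cast hOR
  have hconst : (O : ℝ) * ((k + t + 1).factorial / (k + 1).factorial) = U * o / (k + 1) := by
    rw [← hRR, hfac, hORR]
    field_simp
  refine ⟨by exact_mod_cast k5, k4, fun B => κ * hfn W f K cc (k + t + 1) xa B,
    fun B => -(U * o / (k + 1)) + κ * hfn W f K cc (k + t + 1) xb B,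
    fun B => κ * hfn W f K cc (k + t + 1) xc B, A2.smul73 κ, ?_,
    Harm_const_add (by omega) (B2.smul73 κ) _, ?_, C2.smul73 κ, ?_, ?_, ?_, ?_⟩
  · intro B hB
    show κ * hfn W f K cc (k + t + 1) xa B = _
    rw [A3 B hB, hcan]
    change ((Nat.mul U dA : ℕ) : ℝ) - (if B = Rw K (k + 1) then ((Nat.mul U a1 : ℕ) : ℝ) -
      ((Nat.mul U a2 : ℕ) : ℝ) else 0) = _
    rw [show Nat.mul U dA = U * dA from rfl, show Nat.mul U a1 = U * a1 from rfl,
      show Nat.mul U a2 = U * a2 from rfl]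
    push_cast
    split_ifs <;> ring
  · intro B hB
    show -(U * o / (k + 1)) + κ * hfn W f K cc (k + t + 1) xb B = _
    rw [B3 B hB, hcan']
    change -((U : ℝ) * o / (k + 1)) + (((Nat.mul U DB : ℕ) : ℝ) -
      (if B = Rw K k then ((Nat.mul U b1 : ℕ) : ℝ) - ((Nat.mul U b2 : ℕ) : ℝ) else 0)) /
        (k + 1) = _
    rw [show Nat.mul U DB = U * DB from rfl, show Nat.mul U b1 = U * b1 from rfl,
      show Nat.mul U b2 = U * b2 from rfl]
    push_cast
    split_ifs <;> ring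
  · intro B hB
    show κ * hfn W f K cc (k + t + 1) xc B = _
    rw [C3 B hB, hcan]
    change ((Nat.mul U dC : ℕ) : ℝ) - (if B = Rw K (k + 1) then ((Nat.mul U c1 : ℕ) : ℝ) -
      ((Nat.mul U c2 : ℕ) : ℝ) else 0) = _
    rw [show Nat.mul U dC = U * dC from rfl, show Nat.mul U c1 = U * c1 from rfl,
      show Nat.mul U c2 = U * c2 from rfl]
    push_cast
    split_ifs <;> ring
  · intro B hB
    show 0 ≤ κ * hfn W f K cc (k + t + 1) xa B
    rw [hfn_top hB]
    exact mul_nonneg hκ0.le (div_nonneg (Nat.cast_nonneg _) (ex_pos B).le)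
  · intro B hB
    show 0 ≤ κ * hfn W f K cc (k + t + 1) xc B
    rw [hfn_top hB]
    exact mul_nonneg hκ0.le (div_nonneg (Nat.cast_nonneg _) (ex_pos B).le)
  · intro B hB
    show (-(U * o / (k + 1)) + κ * hfn W f K cc (k + t + 1) xb B) ^ 2 ≤
      κ * hfn W f K cc (k + t + 1) xa B * (κ * hfn W f K cc (k + t + 1) xc B)
    rw [hfn_top hB, hfn_top hB, hfn_top hB]
    have hB0 := ex_pos B
    have h := hx B hB
    set a' : ℝ := (eQ W (K + cc) cc (k + t + 1) xa B : ℝ)
    set b' : ℝ := (eQ W (K + cc) cc (k + t + 1) xb B : ℝ)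
    set c' : ℝ := (eQ W (K + cc) cc (k + t + 1) xc B : ℝ)
    have e1 : -((U : ℝ) * o / (k + 1)) + κ * (b' / ex B) =
        κ / ex B * (b' - O * ((k + t + 1).factorial * ex B / ex (range K))) := by
      rw [← hconst, hκ]
      field_simp
      ring
    have e2 : κ * (a' / ex B) * (κ * (c' / ex B)) = (κ / ex B) ^ 2 * (a' * c') := by
      field_simp
    rw [e1, e2, mul_pow]
    exact mul_le_mul_of_nonneg_left h (sq_nonneg _)

/-- **the two-class certificates from the checks**, `b = (table - O f)` -/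
theorem TCs_of_tab (hP : cP2 W v f k (Nat.succ t) hi U dA a1 a2 DB b1 b2 dC c1 c2 = true)
    (hA : cL W v f (Nat.succ k) t hi (Nat.mul U dA) (Nat.mul U a1) (Nat.mul U a2) xa = true)
    (hB : cL W v f k (Nat.succ t) hi (Nat.mul U DB) (Nat.mul U b1) (Nat.mul U b2) xb = true)
    (hC : cL W v f (Nat.succ k) t hi (Nat.mul U dC) (Nat.mul U c1) (Nat.mul U c2) xc = true)
    (hAB : cB W v f (Nat.succ (Nat.add k t)) O xa xb xc = true)
    (hR : Nat.mul k.factorial R = (Nat.succ (Nat.add k t)).factorial)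
    (hO : Nat.beq (Nat.mul U o) (Nat.mul O R) = true) (ho : o ≤ DB) (ht : 1 ≤ t) :
    TCs (k + t) k (t + 1) dA ((a1 : ℝ) - a2) (((DB : ℝ) - o) / (k + 1))
      (((b1 : ℝ) - b2) / (k + 1)) dC ((c1 : ℝ) - c2) := by
  obtain ⟨hU, hk, a, b, c, q1, q2, q3, q4, q5, q6, q7, q8, q9⟩ :=
    tab_core hP hA hB hC hAB hR hO
  have ho' : (0 : ℝ) ≤ (DB : ℝ) - o := by
    have : (o : ℝ) ≤ DB := by exact_mod_cast ho
    linarith
  refine TCs_rescale hU (TCs_of (n := k + t) (M := k + t + 2) (by omega) (by omega) hk (by omega)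
    a b c _ _ _ _ _ _ q1 (Val_of_const (by omega) (by omega) _ _ _ q2) q3
    (Val_of_const (by omega) (by omega) _ _ _ q4) ?_ q5
    (Val_of_const (by omega) (by omega) _ _ _ q6) ?_ q7 q8 q9)
  · exact mul_nonneg hU.le (div_nonneg ho' (by positivity))
  · exact mul_nonneg hU.le (Nat.cast_nonneg _)

/-- **the two-class certificates from the checks**, `b = (O f - table)` -/
theorem TCs_of_tab_neg (hP : cP2 W v f k (Nat.succ t) hi U dA a1 a2 DB b1 b2 dC c1 c2 = true)
    (hA : cL W v f (Nat.succ k) t hi (Nat.mul U dA) (Nat.mul U a1) (Nat.mul U a2) xa = true)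
    (hB : cL W v f k (Nat.succ t) hi (Nat.mul U DB) (Nat.mul U b1) (Nat.mul U b2) xb = true)
    (hC : cL W v f (Nat.succ k) t hi (Nat.mul U dC) (Nat.mul U c1) (Nat.mul U c2) xc = true)
    (hAB : cB W v f (Nat.succ (Nat.add k t)) O xa xb xc = true)
    (hR : Nat.mul k.factorial R = (Nat.succ (Nat.add k t)).factorial)
    (hO : Nat.beq (Nat.mul U o) (Nat.mul O R) = true) (ho : DB ≤ o) (ht : 1 ≤ t) :
    TCs (k + t) k (t + 1) dA ((a1 : ℝ) - a2) (((o : ℝ) - DB) / (k + 1))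
      (((b2 : ℝ) - b1) / (k + 1)) dC ((c1 : ℝ) - c2) := by
  obtain ⟨hU, hk, a, b, c, q1, q2, q3, q4, q5, q6, q7, q8, q9⟩ :=
    tab_core hP hA hB hC hAB hR hO
  have ho' : (0 : ℝ) ≤ (o : ℝ) - DB := by
    have : (DB : ℝ) ≤ o := by exact_mod_cast ho
    linarith
  refine TCs_rescale hU (TCs_of (n := k + t) (M := k + t + 2) (by omega) (by omega) hk (by omega)
    a (fun B => -1 * b B) c _ _ _ _ _ _ q1 (Val_of_const (by omega) (by omega) _ _ _ q2)
    (q3.smul73 (-1)) (Val_of_const (by omega) (by omega) _ _ _ fun B hB => ?_) ?_ q5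
    (Val_of_const (by omega) (by omega) _ _ _ q6) ?_ q7 q8 fun B hB => ?_)
  · show -1 * b B = _
    rw [q4 B hB]
    split_ifs <;> ring
  · exact mul_nonneg hU.le (div_nonneg ho' (by positivity))
  · exact mul_nonneg hU.le (Nat.cast_nonneg _)
  · show (-1 * b B) ^ 2 ≤ _
    have e : (-1 * b B) ^ 2 = b B ^ 2 := by ring
    rw [e]
    exact q9 B hB

end

/-- **the cross bound from the checks**: `v = (table / const - c)`, table `≤ 2 D f`, level `m'`,
`S` the jump at the one-row shape -/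
theorem CB_of_tab {W v f m j hi D S R E x : ℕ} (hW : Nat.beq W (Nat.pow 2 (Nat.add v 7)) = true)
    (h1 : lt' (Nat.add (Nat.mul 2 (Nat.add m j)) 1) 128 = true)
    (h2 : lt' (Nat.mul 2 (Nat.add m j)) f = true) (h3 : lt' 0 m = true) (h4 : lt' 0 S = true)
    (h5 : lt' (Nat.add (Nat.mul (Nat.mul D R) hi) S) W = true)
    (hE : Nat.beq E (Nat.mul 2 D) = true)
    (hR : Nat.mul m.factorial R = (Nat.add m j).factorial)
    (hx : cL W v f m j hi (Nat.mul D R) 0 S x = true)
    (hV : cV W v f (Nat.add m j) E x = true) :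
    CB (m + j) j (((D : ℝ) * R / S * m.factorial) ^ 2) := by
  have k1 : W = 2 ^ (v + 7) := Nat.eq_of_beq_eq_true hW
  have k2 : 2 * (m + j) + 1 < 128 := lt'_iff h1
  have k3 : 2 * (m + j) < f := lt'_iff h2
  have k4 : 0 < m := lt'_iff h3
  have k5 : 0 < S := lt'_iff h4
  have k6 : D * R * hi + S < W := lt'_iff h5
  have k7 : E = 2 * D := Nat.eq_of_beq_eq_true hE
  have hR' : m.factorial * R = (m + j).factorial := hR
  set K := m + j + 1 with hK
  set cc := m + j with hcc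
  have hp : K + cc < 128 := by omega
  have h2v : 0 < 2 ^ v := pow_pos (by omega) v
  obtain ⟨A1, A2, A3⟩ := cL_sound (K := K) (c := cc) (m := m) (j := j) k1 hp (by omega)
    le_rfl (by omega) (by omega) h2v k6 hx
  have hx' := cV_sound (K := K) (c := cc) (N := m + j) k1 hp le_rfl (by omega) (by omega) A1 hV
  have he : 0 < ex (range K) := ex_pos _
  have hm0 : (0 : ℝ) < m.factorial := by exact_mod_cast m.factorial_pos
  have hS0 : (0 : ℝ) < S := by exact_mod_cast k5
  have hRR : (m.factorial : ℝ) * R = (m + j).factorial := by exact_mod_cast hR'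
  set κ : ℝ := ex (range K) / m.factorial with hκ
  have hκ0 : 0 < κ := div_pos he hm0
  set c : ℝ := (D : ℝ) * R / S with hc
  have h := CB_of (N := m + j) (m := m) (M := K) (by omega) (by omega)
    (fun B => -c + κ / S * hfn W f K cc (m + j) x B) c (Harm_const_add (by omega) (A2.smul73 _) _) ?_ ?_
  · rwa [Nat.add_sub_cancel_left] at h
  · intro B hB
    show -c + κ / S * hfn W f K cc (m + j) x B = _
    rw [A3 B hB, hκ, hc]
    change -((D : ℝ) * R / S) + ex (range K) / m.factorial / S * (m.factorial / ex (range K) *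
      (((Nat.mul D R : ℕ) : ℝ) - if B = Rw K m then ((0 : ℕ) : ℝ) - S else 0)) = _
    rw [show Nat.mul D R = D * R from rfl]
    push_cast
    split_ifs
    · field_simp
      ring
    · field_simp
      ring
  · intro B hB
    show |-c + κ / S * hfn W f K cc (m + j) x B| ≤ c
    rw [hfn_top hB]
    have h6 := hx' B hB
    have hB0 := ex_pos B
    have h7 : (0 : ℝ) ≤ eQ W (K + cc) cc (m + j) x B := Nat.cast_nonneg _
    set x' : ℝ := (eQ W (K + cc) cc (m + j) x B : ℝ)
    have h8 : κ / S * (x' / ex B) ≤ 2 * c := by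
      have h9 : κ / S * (x' / ex B) = x' * (κ / (S * ex B)) := by field_simp
      rw [h9]
      have h10 : 0 ≤ κ / (S * ex B) := by positivity
      refine (mul_le_mul_of_nonneg_right h6 h10).trans (le_of_eq ?_)
      rw [← hRR, k7, hκ, hc]
      push_cast
      field_simp
    have h11 : 0 ≤ κ / S * (x' / ex B) := by positivity
    rw [abs_le]
    constructor <;> linarith

end Pool.TW
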