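import Pool.Agent.Work.MP_46fa68_h48.Pack2

/-!
# MP_46fa68_co: the operator removing a box on packed functions, numbers of standard tableaux

`uq W f c r x`: `x` packs a function on the partitions of `r` with parts at most `c`; the result packs
the function `∑ (boxes removed)` on the partitions of `r + 1` with parts at most `c` (`c ≤ r + 1`).
-/

set_option autoImplicit false

open Finset

namespace Pool.JM.Pack

open Pool.JM.Cert (T ev)

/-- one node of `uq` -/
noncomputable def und (W : ℕ) (ih : ℕ → ℕ → ℕ → ℕ) (c c1 c2 r x : ℕ) : ℕ :=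
  fc (pw W c1 r) (fun M => fc (Nat.mod x M) (fun A =>
    Nat.add (ih c1 r A) (Nat.mul (pw W c1 (Nat.succ r)) (Nat.add
      (cond (Nat.ble c r) (fc (Nat.sub r c) (fun s => fc (mn c (Nat.succ s)) (fun cs =>
        fc (Nat.div x M) (ih cs s)))) 0)
      (Nat.div A (pw W c2 r))))))

/-- the operator removing a box, on packed functions -/
noncomputable def uq (W : ℕ) : ℕ → ℕ → ℕ → ℕ → ℕ :=
  Nat.rec (fun _ _ x => x)
    (fun _ ih c r x => Nat.rec 0 (fun c1 _ => Nat.rec x (fun c2 _ => und W ih c c1 c2 r x) c1) c)

/-- the sum over the boxes which can be removed, positions below `p` -/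
noncomputable def Ug (p : ℕ) (g : Finset ℕ → ℕ) (C : Finset ℕ) : ℕ :=
  ∑ y ∈ range (p - 1), if y + 1 ∈ C ∧ y ∉ C then g (mvd C (y + 1)) else 0

/-- the move of the bead `p` -/
noncomputable def Yg (q : ℕ) (g : Finset ℕ → ℕ) (C : Finset ℕ) : ℕ :=
  if q ∈ C then 0 else g (insert q C)

theorem mvd_insert {p y : ℕ} {C : Finset ℕ} (hy : y + 1 < p) :
    mvd (insert p C) (y + 1) = insert p (mvd C (y + 1)) := by
  ext z
  simp only [mvd, mem_insert, mem_erase, Nat.add_sub_cancel]
  constructor
  · rintro (h | ⟨h1, h2 | h2⟩)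
    · exact Or.inr (Or.inl h)
    · exact Or.inl h2
    · exact Or.inr (Or.inr ⟨h1, h2⟩)
  · rintro (h | h | h)
    · exact Or.inr ⟨by omega, Or.inl h⟩
    · exact Or.inl h
    · exact Or.inr ⟨h.1, Or.inr h.2⟩

theorem mvd_top {q : ℕ} {C : Finset ℕ} (hC : C ⊆ range (q + 1)) :
    mvd (insert (q + 1) C) (q + 1) = insert q C := by
  unfold mvd
  rw [erase_insert (not_mem_of_sub hC), Nat.add_sub_cancel]

theorem U_in {q : ℕ} (g : Finset ℕ → ℕ) {C : Finset ℕ} (hC : C ⊆ range (q + 1)) :
    Ug (q + 1 + 1) g (insert (q + 1) C) =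
      Ug (q + 1) (fun C => g (insert (q + 1) C)) C + Yg q g C := by
  unfold Ug Yg
  rw [Nat.add_sub_cancel, Nat.add_sub_cancel, sum_range_succ]
  congr 1
  · refine sum_congr rfl fun y hy => ?_
    have hy' := mem_range.1 hy
    rw [mvd_insert (by omega)]
    have h1 : y + 1 ∈ insert (q + 1) C ↔ y + 1 ∈ C := by
      rw [mem_insert]
      exact ⟨fun h => h.resolve_left (by omega), Or.inr⟩
    have h2 : y ∉ insert (q + 1) C ↔ y ∉ C := by
      rw [mem_insert]
      exact not_congr ⟨fun h => h.resolve_left (by omega), Or.inr⟩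
    simp only [h1, h2]
  · by_cases h : q ∈ C
    · rw [if_neg (fun hh => hh.2 (mem_insert_of_mem h)), if_pos h]
    · rw [if_pos ⟨mem_insert_self _ _, fun hh => h ((mem_insert.1 hh).resolve_left (by omega))⟩,
        if_neg h, mvd_top hC]

theorem U_out {p : ℕ} (g : Finset ℕ → ℕ) {C : Finset ℕ} (hC : C ⊆ range p) :
    Ug (p + 1) g C = Ug p g C := by
  unfold Ug
  rw [Nat.add_sub_cancel]
  cases p with
  | zero => rfl
  | succ q =>
    rw [Nat.add_sub_cancel, sum_range_succ, if_neg (fun h => not_mem_of_sub hC h.1), add_zero]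

/-- no box can be removed from the empty shape -/
theorem pk_U_zero {W : ℕ} : ∀ (p c : ℕ) (g : Finset ℕ → ℕ), pk W p c 0 (Ug p g) = 0 := by
  intro p
  induction p with
  | zero =>
    intro c g
    rw [pk_congr 0 c 0 (Ug 0 g) (fun _ => 0) (fun C _ => rfl), pk_zero]
  | succ p ih =>
    intro c g
    cases c with
    | zero =>
      rw [pk_col_zero]
      unfold Ug
      refine sum_eq_zero fun y hy => if_neg fun h => h.2 ?_
      have := mem_range.1 h.1
      exact mem_range.2 (by omega)
    | succ c =>
      unfold pk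
      rw [if_neg (by omega), add_zero, pk_congr p c 0 (Ug (p + 1) g) (Ug p g)
        (fun C hC => U_out g hC)]
      exact ih c g

/-- the second summand in the block -/
theorem pk_Y {W q c r : ℕ} (g : Finset ℕ → ℕ) :
    pk W (q + 1) (c + 1) r (Yg q g) = pk W q c r (fun C => g (insert q C)) := by
  conv_lhs => unfold pk
  rw [pk_congr q c r (Yg q g) (fun C => g (insert q C)) (fun C hC => by
    unfold Yg
    rw [if_neg (not_mem_of_sub hC)])]
  have h : pk W q (c + 1) (r - (c + 1)) (fun C => Yg q g (insert q C)) = 0 := by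
    rw [pk_congr q (c + 1) (r - (c + 1)) (fun C => Yg q g (insert q C)) (fun _ => 0)
      (fun C _ => by
        unfold Yg
        rw [if_pos (mem_insert_self _ _)]), pk_zero]
  rw [h, mul_zero, ite_self, add_zero]

/-- one column -/
theorem pk_col_one_up {W : ℕ} : ∀ (r p : ℕ) (g : Finset ℕ → ℕ), r + 2 ≤ p →
    pk W p 1 (r + 1) (Ug p g) = pk W p 1 r g := by
  intro r
  induction r with
  | zero =>
    intro p g h
    obtain ⟨q, rfl⟩ : ∃ q, p = q + 1 + 1 := ⟨p - 2, by omega⟩
    rw [pk_one_succ, pk_one_zero', pk_one_zero', U_in g (range_subset_range.2 (by omega))]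
    unfold Yg
    rw [if_neg notMem_range_self, ← range_add_one]
    have : Ug (q + 1) (fun C => g (insert (q + 1) C)) (range q) = 0 := by
      unfold Ug
      refine sum_eq_zero fun y hy => if_neg fun h => h.2 ?_
      have := mem_range.1 h.1
      exact mem_range.2 (by omega)
    rw [this, zero_add]
  | succ r ih =>
    intro p g h
    obtain ⟨q, rfl⟩ : ∃ q, p = q + 1 + 1 := ⟨p - 2, by omega⟩
    rw [pk_one_succ, pk_congr (q + 1) 1 (r + 1) (fun C => Ug (q + 1 + 1) g (insert (q + 1) C))
      (fun C => Ug (q + 1) (fun C => g (insert (q + 1) C)) C + Yg q g C) (fun C hC => U_in g hC),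
      pk_add, ih (q + 1) _ (by omega)]
    have h2 : pk W (q + 1) 1 (r + 1) (Yg q g) = 0 := by
      rw [pk_Y, pk_col_zero' _ _ _ (by omega)]
    rw [h2, add_zero, pk_one_succ]

theorem und_eq (W : ℕ) (ih : ℕ → ℕ → ℕ → ℕ) (c c1 c2 r x : ℕ) :
    und W ih c c1 c2 r x = ih c1 r (x % W ^ cnt c1 r) + W ^ cnt c1 (r + 1) *
      ((if c ≤ r then ih (min c (r - c + 1)) (r - c) (x / W ^ cnt c1 r) else 0) +
        (x % W ^ cnt c1 r) / W ^ cnt c2 r) := by
  unfold und
  rw [← mn_eq]
  change _ + W ^ cnt c1 (r + 1) * ((cond (Nat.ble c r) _ 0) + _) = _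
  congr 3
  cases h : Nat.ble c r
  · rw [if_neg (fun h' => by rw [Nat.ble_eq_true_of_le h'] at h; exact absurd h (by decide))]
    rfl
  · rw [if_pos (Nat.le_of_ble_eq_true h)]
    rfl

/-- **the operator removing a box on packed functions** -/
theorem uq_pk {W : ℕ} : ∀ (f c r p : ℕ) (g : Finset ℕ → ℕ), (∀ C, g C < W) →
    c + (r + 1) ≤ p → min c (r + 1) + (r + 1) ≤ f →
    uq W f (min c (r + 1)) r (pk W p c r g) = pk W p c (r + 1) (Ug p g) := by
  intro f
  induction f with
  | zero => intro c r p g _ _ h; omega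
  | succ f ihf =>
    intro c
    induction c with
    | zero =>
      intro r p g _ _ _
      rw [Nat.zero_min, pk_col_zero' p (r + 1) _ (by omega)]
      rfl
    | succ c ihc =>
      intro r p g hg hp hf
      obtain ⟨p, rfl⟩ : ∃ p', p = p' + 1 := ⟨p - 1, by omega⟩
      rcases Nat.lt_or_ge (r + 1) (c + 1) with h | h
      · -- the first row is shorter
        have e1 : pk W (p + 1) (c + 1) r g = pk W p c r g := by
          conv_lhs => unfold pk
          rw [if_neg (by omega), add_zero]
        have e2 : pk W (p + 1) (c + 1) (r + 1) (Ug (p + 1) g) = pk W p c (r + 1) (Ug p g) := by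
          conv_lhs => unfold pk
          rw [if_neg (by omega), add_zero]
          exact pk_congr _ _ _ _ _ fun C hC => U_out g hC
        rw [e1, e2, min_eq_right (by omega)]
        have := ihc r p g hg (by omega) (by
          rw [min_eq_right (by omega)] at hf ⊢
          exact hf)
        rwa [min_eq_right (by omega)] at this
      · rw [min_eq_left h] at hf ⊢
        cases c with
        | zero =>
          change pk W (p + 1) 1 r g = _
          exact (pk_col_one_up r (p + 1) g (by omega)).symm
        | succ c2 =>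
          obtain ⟨q, rfl⟩ : ∃ q, p = q + 1 := ⟨p - 1, by omega⟩
          change und W (uq W f) (c2 + 2) (c2 + 1) c2 r _ = _
          rw [und_eq]
          have hW : 0 < W := lt_of_le_of_lt (Nat.zero_le _) (hg ∅)
          have hM : 0 < W ^ cnt (c2 + 1) r := pow_pos hW _
          have hx : pk W (q + 1 + 1) (c2 + 2) r g = pk W (q + 1) (c2 + 1) r g +
              if c2 + 2 ≤ r then W ^ cnt (c2 + 1) r *
                pk W (q + 1) (c2 + 2) (r - (c2 + 2)) (fun C => g (insert (q + 1) C)) else 0 := rfl
          have hl := pk_lt (W := W) (q + 1) (c2 + 1) r g hg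
          have h1 : pk W (q + 1 + 1) (c2 + 2) r g % W ^ cnt (c2 + 1) r =
              pk W (q + 1) (c2 + 1) r g := by
            rw [hx]
            split_ifs
            · rw [Nat.add_mul_mod_self_left, Nat.mod_eq_of_lt hl]
            · rw [add_zero, Nat.mod_eq_of_lt hl]
          have h2 : (if c2 + 2 ≤ r then uq W f (min (c2 + 2) (r - (c2 + 2) + 1)) (r - (c2 + 2))
              (pk W (q + 1 + 1) (c2 + 2) r g / W ^ cnt (c2 + 1) r) else 0) =
              pk W (q + 1) (c2 + 2) (r + 1 - (c2 + 2))
                (Ug (q + 1) (fun C => g (insert (q + 1) C))) := by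
            split_ifs with h3
            · rw [hx, if_pos h3, Nat.add_mul_div_left _ _ hM, Nat.div_eq_of_lt hl, zero_add,
                ihf (c2 + 2) (r - (c2 + 2)) (q + 1) (fun C => g (insert (q + 1) C))
                  (fun C => hg _) (by omega) (by
                    have := min_le_left (c2 + 2) (r - (c2 + 2) + 1)
                    omega), show r + 1 - (c2 + 2) = r - (c2 + 2) + 1 by omega]
            · rw [show r + 1 - (c2 + 2) = 0 by omega, pk_U_zero]
          rw [h2, h1]
          have i1 := ihf (c2 + 1) r (q + 1) g hg (by omega) (by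
            rw [min_eq_left (by omega)]
            omega)
          rw [min_eq_left (by omega)] at i1
          rw [i1]
          have hx2 : pk W (q + 1) (c2 + 1) r g = pk W q c2 r g +
              if c2 + 1 ≤ r then W ^ cnt c2 r *
                pk W q (c2 + 1) (r - (c2 + 1)) (fun C => g (insert q C)) else 0 := rfl
          have h4 : pk W (q + 1) (c2 + 1) r g / W ^ cnt c2 r =
              pk W q (c2 + 1) (r - (c2 + 1)) (fun C => g (insert q C)) := by
            rw [hx2, if_pos (by omega), Nat.add_mul_div_left _ _ (pow_pos hW _),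
              Nat.div_eq_of_lt (pk_lt q c2 r g hg), zero_add]
          rw [h4]
          conv_rhs => unfold pk
          rw [if_pos (by omega)]
          congr 1
          · exact pk_congr _ _ _ _ _ fun C hC => (U_out g hC).symm
          · congr 1
            rw [pk_congr (q + 1) (c2 + 1 + 1) (r + 1 - (c2 + 1 + 1))
              (fun C => Ug (q + 1 + 1) g (insert (q + 1) C))
              (fun C => Ug (q + 1) (fun C => g (insert (q + 1) C)) C + Yg q g C)
              (fun C hC => U_in g hC), pk_add, pk_Y]
            rw [show r + 1 - (c2 + 1 + 1) = r - (c2 + 1) by omega]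

end Pool.JM.Pack
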